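import Pool.Agent.H30.OD.Card

/-!
# MP_78d38b_OD: the strong form of the lower bound, for all twists
-/

set_option autoImplicit false
set_option linter.unusedSectionVars false
open scoped Classical

open WithZero NumberField IsDedekindDomain H38RT
open H38T1 (SC sc scu rep eo la si Pri OddP tp unif)
open H76PP H30ZO

namespace H30OD

variable {k L : Type} [Field k] [NumberField k] [Field L] [NumberField L] [Algebra k L]

/-- The local count for the twists (without integrality of the twist). -/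
theorem loc_idx_tw {a b : k} {θ : L} (h : Cub k L a b θ) (v : HeightOneSpectrum (𝓞 k))
    (ha : v.valuation k a ≤ 1) (hb : v.valuation k b ≤ 1) (hD : 4 * a ^ 3 + 27 * b ^ 2 ≠ 0)
    {E : k} (hE : E ≠ 0) {W : AddSubgroup (SC L)}
    (hW : ∀ c, c ∈ W ↔ c ∈ HH k L ∧ Wc (algebraMap k (v.adicCompletion k)) (E ^ 2 * a) (E ^ 3 * b)
      (algebraMap k L E * θ) c) :
    W.relIndex (HH k L) ≠ 0 ∧ 2 * W.relIndex (HH k L) ≤ 2 ^ nb k L v * qq v := by
  obtain ⟨t, ht0, ht1, ht2⟩ := H76OD.Lt_small v E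
  have hE' : E * t ^ 2 ≠ 0 := mul_ne_zero hE (pow_ne_zero 2 ht0)
  have hv : v.valuation k (E * t ^ 2) ≤ 1 := by
    have e : E * t ^ 2 = t * E * t := by ring
    rw [e, map_mul]
    exact mul_le_one₀ ht2 zero_le ht1
  refine loc_idx (Tf_twist h hE') v ?_ ?_ (H76OD.Lt_dne hE' hD) (fun c => ?_)
  · rw [map_mul, map_pow]
    exact mul_le_one₀ (pow_le_one₀ zero_le hv) zero_le ha
  · rw [map_mul, map_pow]
    exact mul_le_one₀ (pow_le_one₀ zero_le hv) zero_le hb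
  · rw [hW c]
    refine and_congr_right fun _ => ?_
    refine H76OD.Wc_tw_iff _ hE hE' ⟨algebraMap k (v.adicCompletion k) t, ?_⟩
    have e : E * t ^ 2 / E = t * t := by
      field_simp
    rw [e, map_mul]

/-- **The strong form** of the lower bound. -/
theorem card_tw {a b : k} {θ : L} (h : Cub k L a b θ)
    (ha : ∀ v : HeightOneSpectrum (𝓞 k), v.valuation k a ≤ 1)
    (hb : ∀ v : HeightOneSpectrum (𝓞 k), v.valuation k b ≤ 1)
    (hD : 4 * a ^ 3 + 27 * b ^ 2 ≠ 0) {E : k} (hE : E ≠ 0)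
    {Sg T : Finset (HeightOneSpectrum (𝓞 k))} (hd : Disjoint Sg T)
    (h2 : ∀ v : HeightOneSpectrum (𝓞 k), v.valuation k 2 < 1 → v ∈ Sg)
    (hT : ∀ v ∈ T, nb k L v = 2) {W : AddSubgroup (SC L)}
    (hW : ∀ c, c ∈ W ↔ c ∈ HH k L ∧
      (∀ v ∈ Sg, Wc (algebraMap k (v.adicCompletion k)) (E ^ 2 * a) (E ^ 3 * b)
        (algebraMap k L E * θ) c) ∧
      ∀ s : k →+* ℝ, Wc s (E ^ 2 * a) (E ^ 3 * b) (algebraMap k L E * θ) c) :
    W.relIndex (HH k L) ≠ 0 ∧
      2 ^ T.card * W.relIndex (HH k L) ≤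
        Nat.card ↥(H24TD.US L {w : HeightOneSpectrum (𝓞 L) | dn k w ∈ Sg ∪ T} ⊓ HH k L) ∧
      Finite ↥(H24TD.US L {w : HeightOneSpectrum (𝓞 L) | dn k w ∈ Sg ∪ T} ⊓ HH k L) := by
  have hDE := H76OD.Lt_dne hE hD
  have hE2 := Tf_twist h hE
  have hWv : ∀ v : HeightOneSpectrum (𝓞 k), ∃ W : AddSubgroup (SC L), ∀ c, c ∈ W ↔
      c ∈ HH k L ∧ Wc (algebraMap k (v.adicCompletion k)) (E ^ 2 * a) (E ^ 3 * b)
        (algebraMap k L E * θ) c := by
    intro v
    have _ := H36CY.char_zero v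
    refine exists_WW hE2 _ ?_ (H24PD.inf_fin v _ _)
    intro e
    apply hDE
    apply (algebraMap k (v.adicCompletion k)).injective
    rw [map_zero, map_add, map_mul, map_mul, map_pow, map_pow, map_ofNat, map_ofNat]
    exact e
  choose Wf hWf using hWv
  have hWs : ∀ s : k →+* ℝ, ∃ W : AddSubgroup (SC L), ∀ c, c ∈ W ↔
      c ∈ HH k L ∧ Wc s (E ^ 2 * a) (E ^ 3 * b) (algebraMap k L E * θ) c := by
    intro s
    refine exists_WW hE2 s ?_ (H24PD.inf_real _ _)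
    intro e
    apply hDE
    apply s.injective
    rw [map_zero, map_add, map_mul, map_mul, map_pow, map_pow, map_ofNat, map_ofNat]
    exact e
  choose Wr hWr using hWs
  obtain ⟨X, hX⟩ : ∃ X : AddSubgroup (SC L),
      X = H24TD.US L {w : HeightOneSpectrum (𝓞 L) | dn k w ∈ Sg ∪ T} ⊓ HH k L := ⟨_, rfl⟩
  have hcX := card_X h (Sg ∪ T)
  rw [← hX] at hcX ⊢
  have hX0 : Nat.card X ≠ 0 := by
    intro h0
    rw [h0, zero_mul] at hcX
    exact (pow_ne_zero _ two_ne_zero) hcX.symm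
  have hXf : Finite X := Nat.finite_of_card_ne_zero hX0
  -- the product of the indices
  obtain ⟨n, hn⟩ : ∃ n, n = Module.finrank ℚ k := ⟨_, rfl⟩
  obtain ⟨t, ht⟩ : ∃ t, t = Nat.card {s : k →+* ℝ // nr k L s = 3} := ⟨_, rfl⟩
  have hplc := places_count h hD
  rw [← hn, ← ht] at hplc
  have hfinI : ∀ v : HeightOneSpectrum (𝓞 k), (Wf v).relIndex (HH k L) ≠ 0 ∧
      2 * (Wf v).relIndex (HH k L) ≤ 2 ^ nb k L v * qq v :=
    fun v => loc_idx_tw h v (ha v) (hb v) hD hE (hWf v)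
  have hreI : ∀ s : k →+* ℝ, (Wr s).relIndex (HH k L) ≠ 0 ∧
      2 * (Wr s).relIndex (HH k L) ≤ nr k L s + 1 :=
    fun s => real_idx hE2 hDE s (hWr s)
  have hqq : ∏ v ∈ Sg, qq v = 2 ^ n := by
    rw [hn]
    exact prod_two Sg h2
  have hP1 : 2 ^ Sg.card * ∏ v ∈ Sg, (Wf v).relIndex (HH k L) ≤
      2 ^ (∑ v ∈ Sg, nb k L v) * 2 ^ n := by
    have h1 : ∏ v ∈ Sg, (2 * (Wf v).relIndex (HH k L)) ≤
        ∏ v ∈ Sg, (2 ^ nb k L v * qq v) :=
      Finset.prod_le_prod (fun v _ => Nat.zero_le _) (fun v _ => (hfinI v).2)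
    rw [Finset.prod_mul_distrib, Finset.prod_mul_distrib, Finset.prod_const,
      Finset.prod_pow_eq_pow_sum, hqq] at h1
    exact h1
  have hP2 : ∏ s : k →+* ℝ, (Wr s).relIndex (HH k L) ≤ 2 ^ t := by
    have h1 : ∏ s : k →+* ℝ, (Wr s).relIndex (HH k L) ≤
        ∏ s : k →+* ℝ, (if nr k L s = 3 then 2 else 1) := by
      refine Finset.prod_le_prod (fun s _ => Nat.zero_le _) (fun s _ => ?_)
      have h2 := (hreI s).2
      rcases nr_cases h hD s with h3 | h3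
      · rw [h3] at h2
        rw [h3]
        simp only [OfNat.one_ne_ofNat, if_false]
        omega
      · rw [h3] at h2
        rw [h3, if_pos rfl]
        omega
    refine h1.trans (le_of_eq ?_)
    rw [Finset.prod_ite, Finset.prod_const_one, mul_one, Finset.prod_const, ht,
      Nat.card_eq_fintype_card, Fintype.card_subtype]
  -- the intersection
  have hZ : W = (⨅ j : {v // v ∈ Sg} ⊕ (k →+* ℝ), Sum.elim (fun v => Wf v.1) Wr j) ⊓ HH k L := by
    ext c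
    rw [hW c, AddSubgroup.mem_inf, AddSubgroup.mem_iInf]
    constructor
    · rintro ⟨c1, c2, c3⟩
      refine ⟨?_, c1⟩
      rintro (v | s)
      · exact (hWf v.1 c).2 ⟨c1, c2 v.1 v.2⟩
      · exact (hWr s c).2 ⟨c1, c3 s⟩
    · rintro ⟨c1, c2⟩
      exact ⟨c2, fun v hv => ((hWf v c).1 (c1 (Sum.inl ⟨v, hv⟩))).2,
        fun s => ((hWr s c).1 (c1 (Sum.inr s))).2⟩
  have hrel : W.relIndex (HH k L) = (⨅ j : {v // v ∈ Sg} ⊕ (k →+* ℝ),
      Sum.elim (fun v => Wf v.1) Wr j).relIndex (HH k L) := by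
    rw [hZ, AddSubgroup.inf_relIndex_right]
  have hidx : W.relIndex (HH k L) ≤ (∏ v ∈ Sg, (Wf v).relIndex (HH k L)) *
      ∏ s : k →+* ℝ, (Wr s).relIndex (HH k L) := by
    rw [hrel]
    refine (AddSubgroup.relIndex_iInf_le _).trans (le_of_eq ?_)
    rw [Fintype.prod_sum_type]
    simp only [Sum.elim_inl, Sum.elim_inr]
    rw [← Finset.prod_coe_sort Sg (fun v => (Wf v).relIndex (HH k L))]
  have hne : W.relIndex (HH k L) ≠ 0 := by
    rw [hrel]
    refine AddSubgroup.relIndex_iInf_ne_zero ?_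
    rintro (v | s)
    · exact (hfinI v.1).1
    · exact (hreI s).1
  refine ⟨hne, ?_, hXf⟩
  -- conclusion
  have hnb : ∑ v ∈ Sg ∪ T, nb k L v = (∑ v ∈ Sg, nb k L v) + 2 * T.card := by
    rw [Finset.sum_union hd]
    congr 1
    rw [Finset.sum_congr rfl hT, Finset.sum_const, smul_eq_mul, mul_comm]
  have hSc : (Sg ∪ T).card = Sg.card + T.card := Finset.card_union_of_disjoint hd
  have h1 : Nat.card X * 2 ^ (Sg ∪ T).card = 2 ^ (∑ v ∈ Sg ∪ T, nb k L v) * 2 ^ n * 2 ^ t := by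
    have h2 : Nat.card X * 2 ^ (Sg ∪ T).card *
        2 ^ (InfinitePlace.nrRealPlaces k + InfinitePlace.nrComplexPlaces k) =
        2 ^ (∑ v ∈ Sg ∪ T, nb k L v) * 2 ^ n * 2 ^ t *
        2 ^ (InfinitePlace.nrRealPlaces k + InfinitePlace.nrComplexPlaces k) := by
      rw [mul_assoc, ← pow_add, hcX, hplc, ← pow_add, ← pow_add, ← pow_add]
      congr 1
      omega
    exact Nat.eq_of_mul_eq_mul_right (pow_pos two_pos _) h2
  refine Nat.le_of_mul_le_mul_right (c := 2 ^ (Sg ∪ T).card) ?_ (pow_pos two_pos _)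
  rw [h1]
  calc 2 ^ T.card * W.relIndex (HH k L) * 2 ^ (Sg ∪ T).card
      ≤ 2 ^ T.card * ((∏ v ∈ Sg, (Wf v).relIndex (HH k L)) *
          ∏ s : k →+* ℝ, (Wr s).relIndex (HH k L)) * 2 ^ (Sg ∪ T).card :=
        Nat.mul_le_mul_right _ (Nat.mul_le_mul_left _ hidx)
    _ = 2 ^ (2 * T.card) * ((2 ^ Sg.card * ∏ v ∈ Sg, (Wf v).relIndex (HH k L)) *
          ∏ s : k →+* ℝ, (Wr s).relIndex (HH k L)) := by
        rw [hSc, pow_add, two_mul, pow_add]
        ring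
    _ ≤ 2 ^ (2 * T.card) * ((2 ^ (∑ v ∈ Sg, nb k L v) * 2 ^ n) * 2 ^ t) :=
        Nat.mul_le_mul_left _ (Nat.mul_le_mul hP1 hP2)
    _ = 2 ^ (∑ v ∈ Sg ∪ T, nb k L v) * 2 ^ n * 2 ^ t := by
        rw [hnb, pow_add]
        ring

end H30OD
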