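import Pool.Agent.H36.MX.Bs
import Pool.Agent.H76.PP.Te
import Pool.Agent.H30.ZO.Cb
import Pool.Agent.H30.ZO.Na
import Pool.Agent.H76.PP.Za
import Pool.Agent.H76.OD.Rc

/-!
# MP_78d38b_OD, row Ar1: isotropy of the local condition

The class of a point of `y^2 = x^3 + A x + B` over any extension `F` of `K` has a conic
`α X^2 + β Y^2 = 1` with a point over `F` (no assumption on the place or the curve).
-/

set_option autoImplicit false
set_option linter.unusedSectionVars false
open scoped Classical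

open WithZero NumberField IsDedekindDomain H38RT
open H38T1 (SC sc scu rep eo la si Pri OddP tp unif ka)
open H76PP H36MX H76MQ H30ZO H76OD

namespace H30OD

/-- the coordinates of `d Z^2` at `θ^2` -/
private lemma Cs_T {F : Type} [Field F] (a b : F) (y Z : Fin 3 → F) :
    m3 a b y (m3 a b Z Z) 2 = y 2 * Z 0 ^ 2 + 2 * y 1 * Z 0 * Z 1 +
      (y 0 - a * y 2) * (2 * Z 0 * Z 2 + Z 1 ^ 2) + 2 * (-a * y 1 - b * y 2) * Z 1 * Z 2 +
      (-a * y 0 + a ^ 2 * y 2 - b * y 1) * Z 2 ^ 2 := by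
  simp only [m3, Matrix.cons_val_zero, Matrix.cons_val_one, Matrix.cons_val_two,
    Matrix.head_cons, Matrix.tail_cons, Matrix.cons_val]
  ring

/-- A zero of the quadratic form `co_2 (y Z^2)` gives a point of the conic. -/
theorem sol_of_zero {F : Type} [Field F] (h2 : (2 : F) ≠ 0) {a b : F} {y Z : Fin 3 → F} {ν : F}
    (hν : Te_nf a b y = ν * ν) (hν0 : ν ≠ 0) (hα : y 2 ≠ 0)
    (hβ : y 1 ^ 2 - y 0 * y 2 + a * y 2 ^ 2 ≠ 0) (hT : m3 a b y (m3 a b Z Z) 2 = 0)
    (hZ : Z ≠ 0) : Sol (y 2) (y 1 ^ 2 - y 0 * y 2 + a * y 2 ^ 2) := by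
  rw [Cs_T] at hT
  unfold Te_nf at hν
  apply sol_of_iso h2 hα hβ (X := ν * Z 2)
    (Y := y 2 * Z 0 + y 1 * Z 1 + (y 0 - a * y 2) * Z 2)
    (Z := (y 1 ^ 2 - y 0 * y 2 + a * y 2 ^ 2) * Z 1 -
      (y 2 * (-a * y 1 - b * y 2) - y 1 * (y 0 - a * y 2)) * Z 2)
  · linear_combination (y 2 * (y 1 ^ 2 - y 0 * y 2 + a * y 2 ^ 2)) * hT - y 2 * Z 2 ^ 2 * hν
  · by_contra hne
    push Not at hne
    obtain ⟨m0, m1, m2⟩ := hne
    have z2 := (mul_eq_zero.1 m0).resolve_left hν0
    rw [z2, mul_zero, sub_zero] at m2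
    have z1 := (mul_eq_zero.1 m2).resolve_left hβ
    rw [z1, z2, mul_zero, mul_zero, add_zero, add_zero] at m1
    have z0 := (mul_eq_zero.1 m1).resolve_left hα
    apply hZ
    funext j
    fin_cases j
    · exact z0
    · exact z1
    · exact z2

private lemma Cs_smul {F : Type} [Field F] (a b n : F) (u : Fin 3 → F) :
    m3 a b ![n, 0, 0] u = fun j => n * u j := by
  funext j
  fin_cases j <;> simp [m3]

/-- **Isotropy**: a class which satisfies the local condition has a conic with a point. -/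
theorem sol_of_LC {K L F : Type} [Field K] [NumberField K] [Field L] [NumberField L] [Algebra K L]
    [Field F] [CharZero F] (i : K →+* F) {A B : K} {θ : L} (h : Cub K L A B θ) {y : L} (hy : y ≠ 0)
    (ha : al h y ≠ 0) (hb : be h y ≠ 0)
    (hL : LC i A B (fun j => h.co j y)) : Sol (i (al h y)) (i (be h y)) := by
  obtain ⟨x, yp, z, hyp, heq, hm⟩ := hL
  have hev : ev θ (fun j => h.co j y) = y := (h.eq_co y).symm
  have hn1 : Algebra.norm K y = Te_nf A B (fun j => h.co j y) := by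
    rw [← Te_norm h, hev]
  have hfin : Module.Finite K L := Module.Finite.of_basis h.basis
  have hN0 : Algebra.norm K y ≠ 0 := by
    rw [Ne, Algebra.norm_eq_zero_iff]
    exact hy
  set a : F := i A with hadef
  set b : F := i B with hbdef
  set d : Fin 3 → F := fun j => i (h.co j y) with hd
  have hNd : Te_nf a b d = i (Algebra.norm K y) := by
    rw [hadef, hbdef, hd, Te_nf_map, ← hn1]
  have hNd0 : Te_nf a b d ≠ 0 := by
    rw [hNd]
    exact (map_ne_zero i).2 hN0
  set X : Fin 3 → F := ![x, -1, 0] with hX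
  have hnX : Te_nf a b X = yp ^ 2 := by
    rw [heq, hX]
    simp only [Te_nf, Matrix.cons_val_zero, Matrix.cons_val_one, Matrix.cons_val_two,
      Matrix.head_cons, Matrix.tail_cons]
    ring
  have hnn : Te_nf a b d * yp ^ 2 = Te_nf a b z * Te_nf a b z := by
    have h1 := congrArg (Te_nf a b) hm
    rwa [Te_nf_mul, Te_nf_mul, hnX] at h1
  have hnz : Te_nf a b z ≠ 0 := by
    intro h0
    rw [h0, mul_zero] at hnn
    exact mul_ne_zero hNd0 (pow_ne_zero 2 hyp) hnn
  set n : F := Te_nf a b z with hn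
  have hν : Te_nf a b d = n / yp * (n / yp) := by
    field_simp
    linear_combination hnn
  have hν0 : n / yp ≠ 0 := div_ne_zero hnz hyp
  set C : Fin 3 → F := Te_C a b z with hC
  have hzC : m3 a b z C = ![n, 0, 0] := Te_m3_adj a b z
  set Z : Fin 3 → F := m3 a b C X with hZdef
  have hzZ : m3 a b z Z = fun j => n * X j := by
    rw [hZdef, ← Cb_assoc, hzC, Cs_smul]
  have hT : m3 a b d (m3 a b Z Z) 2 = 0 := by
    have e1 : m3 a b d (m3 a b Z Z) = m3 a b (m3 a b z Z) (m3 a b (m3 a b z C) ![1, 0, 0]) := by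
      have e2 : m3 a b d Z = m3 a b z (m3 a b z C) := by
        rw [hZdef, Cb_comm a b C X, ← Cb_assoc, hm, Cb_assoc]
      rw [← Cb_assoc, e2, hzC]
      have e3 : m3 a b z ![n, 0, 0] = fun j => n * z j := by rw [Cb_comm, Cs_smul]
      have e4 : m3 a b ![n, 0, 0] (![1, 0, 0] : Fin 3 → F) = ![n, 0, 0] := by
        rw [Cs_smul]
        funext j
        fin_cases j <;> simp
      rw [e3, e4, hzZ]
      rw [Cb_comm a b (fun j => n * X j), Cs_smul]
      have e5 : (fun j => n * z j) = m3 a b ![n, 0, 0] z := by rw [Cs_smul]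
      rw [e5, Cb_assoc, hzZ, Cs_smul]
    rw [e1, hzC, hzZ]
    have e4 : m3 a b ![n, 0, 0] (![1, 0, 0] : Fin 3 → F) = ![n, 0, 0] := by
      rw [Cs_smul]
      funext j
      fin_cases j <;> simp
    rw [e4, Cb_comm, Cs_smul, hX]
    simp
  have hZ0 : Z ≠ 0 := by
    intro h0
    have h1 := congrFun hzZ 1
    rw [h0, hX] at h1
    simp [m3] at h1
    exact hnz h1
  have h2 : (2 : F) ≠ 0 := two_ne_zero
  have hα : d 2 ≠ 0 := (map_ne_zero i).2 ha
  have hb' : i (be h y) = d 1 ^ 2 - d 0 * d 2 + a * d 2 ^ 2 := by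
    unfold be
    rw [hadef, hd]
    simp only [map_add, map_sub, map_mul, map_pow]
  have hβ : d 1 ^ 2 - d 0 * d 2 + a * d 2 ^ 2 ≠ 0 := by
    rw [← hb']
    exact (map_ne_zero i).2 hb
  have := sol_of_zero h2 hν hν0 hα hβ hT hZ0
  rw [hb']
  exact this

/-- The version for classes. -/
theorem sol_of_Wc {K L F : Type} [Field K] [NumberField K] [Field L] [NumberField L] [Algebra K L]
    [Field F] [CharZero F] (i : K →+* F) {A B : K} {θ : L} (h : Cub K L A B θ) {y : L} (hy : y ≠ 0)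
    (ha : al h y ≠ 0) (hb : be h y ≠ 0)
    (hW : Wc i A B θ (sc y)) : Sol (i (al h y)) (i (be h y)) := by
  have hev : ev θ (fun j => h.co j y) = y := (h.eq_co y).symm
  refine sol_of_LC i h hy ha hb ((Wc_iff i h (by rw [hev]; exact hy)).1 ?_)
  rw [hev]
  exact hW

/-- The coordinates for the twist. -/
theorem co_twist {K L : Type} [Field K] [Field L] [Algebra K L] {A B : K} {θ : L}
    (h : Cub K L A B θ) {E : K} (hE : E ≠ 0) (y : L) :
    (h.twist hE).co 0 y = h.co 0 y ∧ (h.twist hE).co 1 y = h.co 1 y / E ∧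
      (h.twist hE).co 2 y = h.co 2 y / E ^ 2 := by
  have hE' : algebraMap K L E ≠ 0 := (map_ne_zero _).2 hE
  have e := (h.twist hE).co_mk' (h.co 0 y) (h.co 1 y / E) (h.co 2 y / E ^ 2)
  have e1 : algebraMap K L (h.co 0 y) + algebraMap K L (h.co 1 y / E) * (algebraMap K L E * θ) +
      algebraMap K L (h.co 2 y / E ^ 2) * (algebraMap K L E * θ) ^ 2 = y := by
    conv_rhs => rw [h.eq_co y]
    simp only [map_div₀, map_pow]
    field_simp
  rw [e1] at e
  exact e

theorem al_twist {K L : Type} [Field K] [Field L] [Algebra K L] {A B : K} {θ : L}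
    (h : Cub K L A B θ) {E : K} (hE : E ≠ 0) (y : L) :
    al (h.twist hE) y = al h y / E ^ 2 := (co_twist h hE y).2.2

theorem be_twist {K L : Type} [Field K] [Field L] [Algebra K L] {A B : K} {θ : L}
    (h : Cub K L A B θ) {E : K} (hE : E ≠ 0) (y : L) :
    be (h.twist hE) y = be h y / E ^ 2 := by
  obtain ⟨e0, e1, e2⟩ := co_twist h hE y
  unfold be
  rw [e0, e1, e2]
  field_simp

/-- **Isotropy for the twists**: the class of a point of the twist by `E` has a conic with a point. -/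
theorem sol_of_Wc_twist {K L F : Type} [Field K] [NumberField K] [Field L] [NumberField L]
    [Algebra K L] [Field F] [CharZero F] (i : K →+* F) {A B : K} {θ : L} (h : Cub K L A B θ) {E : K}
    (hE : E ≠ 0) {y : L} (hy : y ≠ 0) (ha : al h y ≠ 0) (hb : be h y ≠ 0)
    (hW : Wc i (E ^ 2 * A) (E ^ 3 * B) (algebraMap K L E * θ) (sc y)) :
    Sol (i (al h y)) (i (be h y)) := by
  have e1 := al_twist h hE y
  have e2 := be_twist h hE y
  have hE2 : E ^ 2 ≠ 0 := pow_ne_zero 2 hE
  obtain ⟨X, Y, h1⟩ := sol_of_Wc i (h.twist hE) hy (by rw [e1]; exact div_ne_zero ha hE2)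
    (by rw [e2]; exact div_ne_zero hb hE2) hW
  have hiE : i E ≠ 0 := (map_ne_zero i).2 hE
  refine ⟨X / i E, Y / i E, ?_⟩
  rw [e1, e2, map_div₀, map_div₀, map_pow] at h1
  rw [← h1]
  field_simp

/-- The class of a point of the twist by `E` satisfies `ConAt`. -/
theorem conAt_of_Wc {K L : Type} [Field K] [NumberField K] [Field L] [NumberField L] [Algebra K L]
    {A B : K} {θ : L} (h : Cub K L A B θ) {E : K} (hE : E ≠ 0) (v : HeightOneSpectrum (𝓞 K))
    {c : SC L} (hW : Wc (algebraMap K (v.adicCompletion K)) (E ^ 2 * A) (E ^ 3 * B)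
      (algebraMap K L E * θ) c) : ConAt h v c := by
  intro y hy hyc ha hb
  refine hs_eq_zero.2 (sol_of_Wc_twist _ h hE hy ha hb ?_)
  rw [hyc]
  exact hW

/-- The same at a real place. -/
theorem conR_of_Wc {K L : Type} [Field K] [NumberField K] [Field L] [NumberField L] [Algebra K L]
    {A B : K} {θ : L} (h : Cub K L A B θ) {E : K} (hE : E ≠ 0) (s : K →+* ℝ)
    {c : SC L} (hW : Wc s (E ^ 2 * A) (E ^ 3 * B) (algebraMap K L E * θ) c) : ConR h s c := by
  intro y hy hyc ha hb hlt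
  obtain ⟨X, Y, h1⟩ := sol_of_Wc_twist s h hE hy ha hb (by rw [hyc]; exact hW)
  have h4 : s (al h y) * X ^ 2 ≤ 0 := mul_nonpos_of_nonpos_of_nonneg hlt.1.le (sq_nonneg X)
  have h5 : s (be h y) * Y ^ 2 ≤ 0 := mul_nonpos_of_nonpos_of_nonneg hlt.2.le (sq_nonneg Y)
  linarith

/-- Without twist. -/
theorem conAt_of_Wc' {K L : Type} [Field K] [NumberField K] [Field L] [NumberField L] [Algebra K L]
    {A B : K} {θ : L} (h : Cub K L A B θ) (v : HeightOneSpectrum (𝓞 K))
    {c : SC L} (hW : Wc (algebraMap K (v.adicCompletion K)) A B θ c) : ConAt h v c := by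
  intro y hy hyc ha hb
  refine hs_eq_zero.2 (sol_of_Wc _ h hy ha hb ?_)
  rw [hyc]
  exact hW

/-- Without twist, at a real place. -/
theorem conR_of_Wc' {K L : Type} [Field K] [NumberField K] [Field L] [NumberField L] [Algebra K L]
    {A B : K} {θ : L} (h : Cub K L A B θ) (s : K →+* ℝ)
    {c : SC L} (hW : Wc s A B θ c) : ConR h s c := by
  intro y hy hyc ha hb hlt
  obtain ⟨X, Y, h1⟩ := sol_of_Wc s h hy ha hb (by rw [hyc]; exact hW)
  have h4 : s (al h y) * X ^ 2 ≤ 0 := mul_nonpos_of_nonpos_of_nonneg hlt.1.le (sq_nonneg X)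
  have h5 : s (be h y) * Y ^ 2 ≤ 0 := mul_nonpos_of_nonpos_of_nonneg hlt.2.le (sq_nonneg Y)
  linarith

end H30OD
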