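import Pool.Agent.H88.OD.Gc
import Pool.Agent.H30.OD.Card2

/-!
# MP_78d38b_OD: the places above the special primes, the lower bound in terms of `S.Y`
-/

set_option autoImplicit false
set_option linter.unusedSectionVars false
open scoped Classical

open WithZero NumberField IsDedekindDomain H38RT
open H38T1 (SC sc scu rep eo la si Pri OddP tp unif)
open H76PP (Cub LC ev scm dn)
open H76PP H88OD H30ZO

namespace H30OD

variable {K F L : Type} [Field K] [NumberField K] [Field F] [NumberField F] [Field L]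
  [NumberField L] [Algebra K F] [Algebra F L] {a b : K} {θ : L} {S : Ext K F L a b θ}
  {Sg : Finset (HeightOneSpectrum (𝓞 K))}

theorem nb_gq (S : Ext K F L a b θ) (g : F ≃ₐ[K] F) (v : HeightOneSpectrum (𝓞 F)) :
    nb F L (gq g • v) = nb F L v := by
  have h : {w : HeightOneSpectrum (𝓞 L) | dn F w = gq g • v} =
      (fun w => S.ρ g • w) '' {w : HeightOneSpectrum (𝓞 L) | dn F w = v} := by
    ext w
    rw [Set.mem_image]
    constructor
    · intro hw
      refine ⟨(S.ρ g)⁻¹ • w, ?_, smul_inv_smul _ _⟩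
      have h1 : dn F (S.ρ g • ((S.ρ g)⁻¹ • w)) = gq g • dn F ((S.ρ g)⁻¹ • w) := dn_smul S g _
      rw [smul_inv_smul] at h1
      have h2 : dn F w = gq g • v := hw
      rw [h2] at h1
      exact (smul_left_cancel _ h1).symm
    · rintro ⟨u, hu, rfl⟩
      have h2 : dn F u = v := hu
      change dn F (S.ρ g • u) = gq g • v
      rw [dn_smul, h2]
  unfold H30ZO.nb
  rw [h, Set.ncard_image_of_injective _ (MulAction.injective _)]

/-- (a) There are exactly two places of `L` above a place of `F` above a special prime. -/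
theorem nb_sp (P : Sp S Sg) {v : HeightOneSpectrum (𝓞 F)} (h : dn K v = P.q) : nb F L v = 2 := by
  obtain ⟨g, rfl⟩ := P.aboveF h
  rw [nb_gq S]
  unfold H30ZO.nb
  have h1 : {w : HeightOneSpectrum (𝓞 L) | dn F w = P.v} = {P.t1, P.t2} := by
    ext w
    constructor
    · intro hw
      exact P.tw.only w hw
    · rintro (rfl | hw)
      · exact P.tw.dn1
      · rw [Set.mem_singleton_iff] at hw
        rw [hw]
        exact P.tw.dn2
  rw [h1, Set.ncard_pair P.tw.ne]

/-- (b) The number of places of `F` above a set of special primes. -/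
theorem ncard_sp (T : Finset (HeightOneSpectrum (𝓞 K))) (hT : ∀ q ∈ T, ∃ P : Sp S Sg, P.q = q) :
    {v : HeightOneSpectrum (𝓞 F) | dn K v ∈ T}.ncard = Nat.card (F ≃ₐ[K] F) * T.card := by
  choose P' hP0 using hT
  have hP' : ∀ q (hq : q ∈ T), dn K (P' q hq).v = q := hP0
  have h1 : {v : HeightOneSpectrum (𝓞 F) | dn K v ∈ T} =
      Set.range (fun x : (F ≃ₐ[K] F) × {q // q ∈ T} => gq x.1 • (P' x.2.1 x.2.2).v) := by
    ext v
    constructor
    · intro hv
      have hv' : dn K v ∈ T := hv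
      obtain ⟨g, hg⟩ := (P' (dn K v) hv').aboveF (v := v) (hP0 _ hv').symm
      exact ⟨(g, ⟨dn K v, hv'⟩), hg.symm⟩
    · rintro ⟨⟨g, q, hq⟩, rfl⟩
      change dn K (gq g • (P' q hq).v) ∈ T
      rw [dn_gq, hP' q hq]
      exact hq
  have h2 : Function.Injective
      (fun x : (F ≃ₐ[K] F) × {q // q ∈ T} => gq x.1 • (P' x.2.1 x.2.2).v) := by
    rintro ⟨g, q, hq⟩ ⟨g', q', hq'⟩ h
    have h3 : gq g • (P' q hq).v = gq g' • (P' q' hq').v := h
    have h4 : q = q' := by
      have h5 := congrArg (dn K) h3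
      rwa [dn_gq, dn_gq, hP' q hq, hP' q' hq'] at h5
    subst h4
    have h6 : gq (g'⁻¹ * g) • (P' q hq).v = (P' q hq).v := by
      have h7 : gq (g'⁻¹ * g) = (gq g')⁻¹ * gq g := by
        apply AlgEquiv.ext
        intro x
        rfl
      rw [h7, mul_smul, h3, inv_smul_smul]
    have h8 := (P' q hq).frv h6
    have h9 : g = g' := by
      rw [inv_mul_eq_one] at h8
      exact h8.symm
    rw [h9]
  rw [h1, ← Set.image_univ, Set.ncard_image_of_injective _ h2, Set.ncard_univ, Nat.card_prod,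
    Nat.card_eq_fintype_card (α := {q // q ∈ T}), Fintype.card_coe]

/-- (c) The places above two are above `Sg`. -/
theorem two_sg {D : K} (ok : S.Ok D Sg) {v : HeightOneSpectrum (𝓞 F)} (h : v.valuation F 2 < 1) :
    dn K v ∈ Sg := by
  by_contra h1
  have h2 := ok.two _ h1
  have h3 : v.valuation F (algebraMap K F 2) = 1 := H76PP.val_one h2
  rw [map_ofNat] at h3
  exact absurd h3 (ne_of_lt h)

/-- The places above a finite set. -/
theorem fin_ab (T : Finset (HeightOneSpectrum (𝓞 K))) :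
    {v : HeightOneSpectrum (𝓞 F) | dn K v ∈ T}.Finite := by
  have h1 : {v : HeightOneSpectrum (𝓞 F) | dn K v ∈ T} =
      ⋃ q ∈ T, {v : HeightOneSpectrum (𝓞 F) | dn K v = q} := by
    ext w
    simp
  rw [h1]
  exact T.finite_toSet.biUnion fun v _ => fin_above v

/-- The local conditions over `F`. -/
theorem Lv_iff (S : Ext K F L a b θ) (D : K) (v : HeightOneSpectrum (𝓞 F)) (c : SC L) :
    S.Lv D v c ↔ Wc (algebraMap F (v.adicCompletion F))
      ((algebraMap K F D) ^ 2 * algebraMap K F a) ((algebraMap K F D) ^ 3 * algebraMap K F b)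
      (algebraMap F L (algebraMap K F D) * θ) c := by
  rw [Ext.Lv, map_mul, map_mul, map_pow, map_pow]

theorem Lr_iff (S : Ext K F L a b θ) (D : K) (s : F →+* ℝ) (c : SC L) :
    S.Lr D s c ↔ Wc s
      ((algebraMap K F D) ^ 2 * algebraMap K F a) ((algebraMap K F D) ^ 3 * algebraMap K F b)
      (algebraMap F L (algebraMap K F D) * θ) c := by
  rw [Ext.Lr, map_mul, map_mul, map_pow, map_pow]

/-- The discriminant over `F`. -/
theorem dne_F (S : Ext K F L a b θ) :
    4 * (algebraMap K F a) ^ 3 + 27 * (algebraMap K F b) ^ 2 ≠ 0 := by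
  intro e
  apply S.dne
  apply (algebraMap K F).injective
  rw [map_zero, map_add, map_mul, map_mul, map_pow, map_pow, map_ofNat, map_ofNat]
  exact e

/-- **The relaxed group**: it is finite and has at least `2 ^ (|G| |T|)` elements. -/
theorem card_Yt {D : K} (ok : S.Ok D Sg) {T : Finset (HeightOneSpectrum (𝓞 K))}
    (hT : ∀ q ∈ T, ∃ P : Sp S Sg, P.q = q) {Y : AddSubgroup (SC L)}
    (hY : ∀ c, c ∈ Y ↔ S.Y D Sg T c) :
    Finite Y ∧ 2 ^ (Nat.card (F ≃ₐ[K] F) * T.card) ≤ Nat.card Y := by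
  have hDE : algebraMap K F D ≠ 0 := (map_ne_zero _).2 ok.ne
  obtain ⟨Sg', hSg'⟩ : ∃ A : Finset (HeightOneSpectrum (𝓞 F)), A = (fin_ab (F := F) Sg).toFinset :=
    ⟨_, rfl⟩
  obtain ⟨T', hT'⟩ : ∃ A : Finset (HeightOneSpectrum (𝓞 F)), A = (fin_ab (F := F) T).toFinset :=
    ⟨_, rfl⟩
  have m1 : ∀ v, v ∈ Sg' ↔ dn K v ∈ Sg := fun v => by
    rw [hSg', Set.Finite.mem_toFinset]
    rfl
  have m2 : ∀ v, v ∈ T' ↔ dn K v ∈ T := fun v => by
    rw [hT', Set.Finite.mem_toFinset]
    rfl
  have hcard : T'.card = Nat.card (F ≃ₐ[K] F) * T.card := by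
    rw [← ncard_sp T hT, hT', Set.ncard_eq_toFinset_card _ (fin_ab T)]
  have hd : Disjoint Sg' T' := by
    rw [Finset.disjoint_left]
    intro v h1 h2
    rw [m1] at h1
    rw [m2] at h2
    obtain ⟨P, hP⟩ := hT _ h2
    apply P.out
    rw [← hP] at h1
    exact h1
  obtain ⟨W, hW⟩ : ∃ W : AddSubgroup (SC L), ∀ c, c ∈ W ↔ c ∈ HH F L ∧
      (∀ v ∈ Sg', Wc (algebraMap F (v.adicCompletion F))
        ((algebraMap K F D) ^ 2 * algebraMap K F a) ((algebraMap K F D) ^ 3 * algebraMap K F b)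
        (algebraMap F L (algebraMap K F D) * θ) c) ∧
      ∀ s : F →+* ℝ, Wc s ((algebraMap K F D) ^ 2 * algebraMap K F a)
        ((algebraMap K F D) ^ 3 * algebraMap K F b) (algebraMap F L (algebraMap K F D) * θ) c := by
    have hD0 := dne_F S
    have hDE' := H76OD.Lt_dne hDE hD0
    have hE2 := Tf_twist S.cub hDE
    have hWv : ∀ v : HeightOneSpectrum (𝓞 F), ∃ W : AddSubgroup (SC L), ∀ c, c ∈ W ↔
        c ∈ HH F L ∧ Wc (algebraMap F (v.adicCompletion F))
          ((algebraMap K F D) ^ 2 * algebraMap K F a) ((algebraMap K F D) ^ 3 * algebraMap K F b)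
          (algebraMap F L (algebraMap K F D) * θ) c := by
      intro v
      have _ := H36CY.char_zero v
      refine exists_WW hE2 _ ?_ (H24PD.inf_fin v _ _)
      intro e
      apply hDE'
      apply (algebraMap F (v.adicCompletion F)).injective
      rw [map_zero, map_add, map_mul, map_mul, map_pow, map_pow, map_ofNat, map_ofNat]
      exact e
    choose Wf hWf using hWv
    have hWs : ∀ s : F →+* ℝ, ∃ W : AddSubgroup (SC L), ∀ c, c ∈ W ↔
        c ∈ HH F L ∧ Wc s ((algebraMap K F D) ^ 2 * algebraMap K F a)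
          ((algebraMap K F D) ^ 3 * algebraMap K F b)
          (algebraMap F L (algebraMap K F D) * θ) c := by
      intro s
      refine exists_WW hE2 s ?_ (H24PD.inf_real _ _)
      intro e
      apply hDE'
      apply s.injective
      rw [map_zero, map_add, map_mul, map_mul, map_pow, map_pow, map_ofNat, map_ofNat]
      exact e
    choose Wr hWr using hWs
    refine ⟨(⨅ j : {v // v ∈ Sg'} ⊕ (F →+* ℝ), Sum.elim (fun v => Wf v.1) Wr j) ⊓ HH F L, ?_⟩
    intro c
    rw [AddSubgroup.mem_inf, AddSubgroup.mem_iInf]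
    constructor
    · rintro ⟨c1, c2⟩
      exact ⟨c2, fun v hv => ((hWf v c).1 (c1 (Sum.inl ⟨v, hv⟩))).2,
        fun s => ((hWr s c).1 (c1 (Sum.inr s))).2⟩
    · rintro ⟨c1, c2, c3⟩
      refine ⟨?_, c1⟩
      rintro (v | s)
      · exact (hWf v.1 c).2 ⟨c1, c2 v.1 v.2⟩
      · exact (hWr s c).2 ⟨c1, c3 s⟩
  have key := card_tw S.cub (k := F) (a := algebraMap K F a) (b := algebraMap K F b)
    (fun v => H76PP.val_le (S.ha _)) (fun v => H76PP.val_le (S.hb _)) (dne_F S) hDE hd
    (fun v hv => (m1 v).2 (two_sg ok hv))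
    (fun v hv => by
      rw [m2] at hv
      obtain ⟨P, hP⟩ := hT _ hv
      exact nb_sp P hP.symm) hW
  obtain ⟨k1, k2, k3⟩ := key
  obtain ⟨X, hX⟩ : ∃ X : AddSubgroup (SC L),
      X = H24TD.US L {w : HeightOneSpectrum (𝓞 L) | dn F w ∈ Sg' ∪ T'} ⊓ HH F L := ⟨_, rfl⟩
  rw [← hX] at k2 k3
  have hXH : X ≤ HH F L := by
    rw [hX]
    exact inf_le_right
  -- `Y` contains the intersection
  have hYX : W ⊓ X ≤ Y := by
    intro c hc
    obtain ⟨c1, c2⟩ := AddSubgroup.mem_inf.1 hc
    obtain ⟨h1, h2, h3⟩ := (hW c).1 c1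
    refine (hY c).2 ⟨h1, fun v hv => (Lv_iff S D v c).2 (h2 v ((m1 v).2 hv)),
      fun s => (Lr_iff S D s c).2 (h3 s), ?_⟩
    intro w hw1 hw2
    rw [hX] at c2
    obtain ⟨u, hu, rfl⟩ := (AddSubgroup.mem_inf.1 c2).1
    rw [H24TD.cls_eq, H38T1.eo_sc (Units.ne_zero _)]
    have h4 : w.valuation L ((Additive.toMul u : Lˣ) : L) = 1 := by
      refine hu w ?_
      intro h5
      have h6 : dn F w ∈ Sg' ∪ T' := h5
      rw [Finset.mem_union, m1, m2] at h6
      rcases h6 with h6 | h6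
      · exact hw1 h6
      · exact hw2 h6
    rw [ord, h4, log_one, neg_zero, Int.cast_zero]
  have hYf : Finite Y := by
    have hSL : {w : HeightOneSpectrum (𝓞 L) | dn F w ∈ Sg' ∪ T'}.Finite := by
      have h1 : {w : HeightOneSpectrum (𝓞 L) | dn F w ∈ Sg' ∪ T'} =
          ⋃ v ∈ Sg' ∪ T', {w : HeightOneSpectrum (𝓞 L) | dn F w = v} := by
        ext w
        simp
      rw [h1]
      exact (Sg' ∪ T').finite_toSet.biUnion fun v _ => fin_above v
    have h2 := H24TD.fin_US hSL
    have h3 : (Y : Set (SC L)) ⊆ {c : SC L |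
        ∀ w, w ∉ {w : HeightOneSpectrum (𝓞 L) | dn F w ∈ Sg' ∪ T'} → eo w c = 0} := by
      intro c hc w hw
      have hw' : dn F w ∉ Sg' ∪ T' := hw
      rw [Finset.mem_union, not_or, m1, m2] at hw'
      exact ((hY c).1 hc).ev w hw'.1 hw'.2
    exact (h2.subset h3).to_subtype
  refine ⟨hYf, ?_⟩
  have hcard2 : Nat.card X = Nat.card ↥(W ⊓ X : AddSubgroup (SC L)) * W.relIndex X := by
    have h1 := AddSubgroup.relIndex_mul_relIndex (⊥ : AddSubgroup (SC L)) (W ⊓ X) X bot_le
      inf_le_right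
    rw [AddSubgroup.relIndex_bot_left, AddSubgroup.relIndex_bot_left,
      AddSubgroup.inf_relIndex_right] at h1
    exact h1.symm
  have hle : Nat.card ↥(W ⊓ X : AddSubgroup (SC L)) ≤ Nat.card Y :=
    Nat.card_le_card_of_injective (AddSubgroup.inclusion hYX) (AddSubgroup.inclusion_injective hYX)
  have h5 : W.relIndex X ≤ W.relIndex (HH F L) := AddSubgroup.relIndex_le_of_le_right hXH k1
  rw [hcard] at k2
  have h6 : 2 ^ (Nat.card (F ≃ₐ[K] F) * T.card) * W.relIndex (HH F L) ≤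
      Nat.card Y * W.relIndex (HH F L) := by
    refine k2.trans ?_
    rw [hcard2]
    exact Nat.mul_le_mul hle h5
  exact Nat.le_of_mul_le_mul_right h6 (Nat.pos_of_ne_zero k1)

end H30OD
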