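import Pool.Agent.H30.OD.Od1
import Pool.Agent.H36.CY.Ac
import Pool.Agent.H36.CY.Vl
import Pool.Agent.H36.CY.Ld
import Pool.Agent.H10.StarGal
import Pool.Agent.H24.PD.Lf

/-!
# MP_78d38b_OD: the decomposition group acts on the completion

`Dec K w` decomposition group, `act w : Dec K w → (F_w →+* F_w)` (continuous, isometric,
multiplicative, extends `g`), the fixed elements are the elements of `K_v` (weak approximation and
the trace of `F / K`). Conclusion `LC_down`: the local condition descends from `F_w` to `K_v` if the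
degree of `F / K` is odd.
-/

set_option autoImplicit false
set_option linter.unusedSectionVars false
open scoped Classical

open WithZero NumberField IsDedekindDomain H76PP H36CY H24PD H73P2 H30ZO

namespace H30OD

private theorem Od_dens {K : Type} [Field K] [NumberField K] (u : HeightOneSpectrum (𝓞 K))
    {x : u.adicCompletion K} {s : Set (u.adicCompletion K)} (hs : s ∈ nhds x) :
    ∃ y : K, algebraMap K (u.adicCompletion K) y ∈ s := by
  obtain ⟨y, hy⟩ := (HeightOneSpectrum.denseRange_algebraMap (K := K) u).mem_nhds hs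
  exact ⟨y, hy⟩

private theorem Od_small {K : Type} [Field K] [NumberField K] (u : HeightOneSpectrum (𝓞 K))
    {g : WithZero (Multiplicative ℤ)} (hg : g ≠ 0) :
    ∃ c : u.adicCompletion K, c ≠ 0 ∧ Valued.v c < g := by
  obtain ⟨n, hn⟩ := exists_exp_neg_natCast_lt (x := g) hg
  obtain ⟨π, hπ⟩ := u.valuation_exists_uniformizer K
  refine ⟨algebraMap K (u.adicCompletion K) (π ^ n), ?_, ?_⟩
  · have h1 : π ≠ 0 := by
      rintro rfl
      rw [map_zero] at hπ
      exact absurd hπ.symm exp_ne_zero
    exact (map_ne_zero _).2 (pow_ne_zero _ h1)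
  · rw [val_coe, map_pow, hπ]
    refine lt_of_le_of_lt (le_of_eq ?_) hn
    rw [← exp_nsmul]
    congr 1
    simp

private theorem Od_ball {K : Type} [Field K] [NumberField K] (u : HeightOneSpectrum (𝓞 K))
    (x : u.adicCompletion K) {s : Set (u.adicCompletion K)} (hs : s ∈ nhds x) :
    ∃ c : u.adicCompletion K, c ≠ 0 ∧ ∀ z, Valued.v (z - x) < Valued.v c → z ∈ s := by
  obtain ⟨γ, hγ⟩ := Valued.mem_nhds.1 hs
  obtain ⟨c, hc, hc2⟩ := Od_small u (g := MonoidWithZeroHom.ValueGroup₀.embedding γ.1) (by simp)
  refine ⟨c, hc, fun z hz => hγ ?_⟩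
  change Valued.v.restrict _ < γ.1
  rw [Valuation.restrict_lt_iff_lt_embedding]
  exact hz.trans hc2

private theorem Od_pow {N : Type} [Field N] [NumberField N] (S : Finset (HeightOneSpectrum (𝓞 N)))
    {b : 𝓞 N} (hb : b ≠ 0) {ε : WithZero (Multiplicative ℤ)} (hε : ε ≠ 0) :
    ∃ k : ℕ, ∀ V ∈ S, exp (-(k : ℤ)) < ε * V.intValuation b := by
  induction S using Finset.induction_on with
  | empty => exact ⟨0, fun V hV => absurd hV (Finset.notMem_empty V)⟩
  | insert V S hV ih =>
    obtain ⟨k, hk⟩ := ih
    have h0 : ε * V.intValuation b ≠ 0 := mul_ne_zero hε (V.intValuation_ne_zero b hb)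
    obtain ⟨l, hl⟩ : ∃ l : ℕ, exp (-(l : ℤ)) < ε * V.intValuation b := by
      refine ⟨(-(log (ε * V.intValuation b)) + 1).toNat, ?_⟩
      have h2 := Int.self_le_toNat (-(log (ε * V.intValuation b)) + 1)
      have h3 : exp (-((-(log (ε * V.intValuation b)) + 1).toNat : ℤ)) <
          exp (log (ε * V.intValuation b)) := by
        rw [exp_lt_exp]
        omega
      rwa [exp_log h0] at h3
    refine ⟨max k l, fun U hU => ?_⟩
    rcases Finset.mem_insert.mp hU with rfl | hU
    · refine lt_of_le_of_lt ?_ hl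
      rw [exp_le_exp]
      have : (l : ℤ) ≤ ((max k l : ℕ) : ℤ) := by exact_mod_cast le_max_right k l
      omega
    · refine lt_of_le_of_lt ?_ (hk U hU)
      rw [exp_le_exp]
      have : (k : ℤ) ≤ ((max k l : ℕ) : ℤ) := by exact_mod_cast le_max_left k l
      omega

/-- Weak approximation. -/
theorem weak_app {N : Type} [Field N] [NumberField N]
    (S : Finset (HeightOneSpectrum (𝓞 N))) (x : HeightOneSpectrum (𝓞 N) → N)
    {ε : WithZero (Multiplicative ℤ)} (hε : ε ≠ 0) :
    ∃ y : N, ∀ V ∈ S, V.valuation N (y - x V) < ε := by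
  obtain ⟨b, hb⟩ := IsLocalization.exist_integer_multiples_of_finset (nonZeroDivisors (𝓞 N))
    (S.image x)
  have hb0 : (b : 𝓞 N) ≠ 0 := nonZeroDivisors.ne_zero b.2
  have ha : ∀ V : HeightOneSpectrum (𝓞 N), V ∈ S → ∃ a : 𝓞 N,
      algebraMap (𝓞 N) N a = algebraMap (𝓞 N) N b * x V := by
    intro V hV
    obtain ⟨a, ha⟩ := hb (x V) (Finset.mem_image_of_mem x hV)
    refine ⟨a, ?_⟩
    rw [ha, Algebra.smul_def]
  obtain ⟨k, hk⟩ := Od_pow S hb0 hε
  obtain ⟨z, hz⟩ := IsDedekindDomain.exists_forall_sub_mem_ideal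
    (s := S) (fun V : HeightOneSpectrum (𝓞 N) => V.asIdeal) (fun _ => k)
    (fun V _ => V.prime)
    (fun V _ U _ hVU h => hVU (HeightOneSpectrum.ext h))
    (fun V => (ha V.1 V.2).choose)
  have hbN : algebraMap (𝓞 N) N b ≠ 0 := by
    intro h
    exact hb0 ((FaithfulSMul.algebraMap_injective (𝓞 N) N) (by rw [h, map_zero]))
  refine ⟨algebraMap (𝓞 N) N z / algebraMap (𝓞 N) N b, fun V hV => ?_⟩
  have h1 := hz V hV
  have h2 := (ha V hV).choose_spec
  set a := (ha V hV).choose with hadef
  have h3 : algebraMap (𝓞 N) N z / algebraMap (𝓞 N) N b - x V =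
      algebraMap (𝓞 N) N (z - a) / algebraMap (𝓞 N) N b := by
    rw [map_sub, h2]
    field_simp
  rw [h3, map_div₀, V.valuation_of_algebraMap, V.valuation_of_algebraMap,
    div_lt_iff₀ (zero_lt_iff.mpr (V.intValuation_ne_zero b hb0))]
  exact lt_of_le_of_lt ((V.intValuation_le_pow_iff_mem (z - a) k).mpr h1) (hk V hV)

section Dec

variable (K : Type) {F : Type} [Field K] [NumberField K] [Field F] [NumberField F] [Algebra K F]
  (w : HeightOneSpectrum (𝓞 F))

/-- The decomposition group. -/
def Dec : Subgroup (F ≃ₐ[K] F) where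
  carrier := {g | Stb K w g}
  mul_mem' := by
    intro g h hg hh y
    rw [AlgEquiv.mul_apply, hg, hh]
  one_mem' := fun y => rfl
  inv_mem' := by
    intro g hg y
    have h1 := hg (g⁻¹ y)
    have h2 : g (g⁻¹ y) = y := by
      rw [← AlgEquiv.mul_apply, mul_inv_cancel, AlgEquiv.one_apply]
    rw [h2] at h1
    exact h1.symm

lemma mem_Dec {g : F ≃ₐ[K] F} : g ∈ Dec K w ↔ Stb K w g := Iff.rfl

variable {K} in
/-- The action of the decomposition group on the completion. -/
noncomputable def act (g : Dec K w) : w.adicCompletion F →+* w.adicCompletion F :=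
  (exists_act w g.2).choose

lemma act_cont (g : Dec K w) : Continuous (act w g) := (exists_act w g.2).choose_spec.1

lemma act_coe (g : Dec K w) (x : F) : act w g (algebraMap F (w.adicCompletion F) x) =
    algebraMap F (w.adicCompletion F) (g.1 x) := (exists_act w g.2).choose_spec.2 x

lemma act_mul (g h : Dec K w) (x : w.adicCompletion F) :
    act w (g * h) x = act w g (act w h x) := by
  have h1 := act_ext w (f := fun x => act w (g * h) x) (f' := fun x => act w g (act w h x))
    (act_cont K w _) ((act_cont K w g).comp (act_cont K w h)) (fun y => by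
      change act w (g * h) _ = act w g (act w h _)
      rw [act_coe, act_coe, act_coe]
      rfl)
  exact congrFun h1 x

lemma act_val (g : Dec K w) (x : w.adicCompletion F) : Valued.v (act w g x) = Valued.v x := by
  by_cases hx : x = 0
  · rw [hx, map_zero]
  have hx2 : act w g x ≠ 0 := (map_ne_zero _).2 hx
  obtain ⟨y, hy1, hy2⟩ := Od_dens w (Filter.inter_mem (Te_nhd x hx)
    (((act_cont K w g).continuousAt (x := x)).preimage_mem_nhds (Te_nhd (act w g x) hx2)))
  have h1 : Valued.v (algebraMap F (w.adicCompletion F) y) = Valued.v x :=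
    Valuation.map_eq_of_sub_lt _ hy1
  have h3 : Valued.v (act w g (algebraMap F (w.adicCompletion F) y)) = Valued.v (act w g x) :=
    Valuation.map_eq_of_sub_lt _ hy2
  rw [← h1, ← h3, act_coe, val_coe, val_coe, g.2 y]

lemma act_map (g : Dec K w) (x : (dn K w).adicCompletion K) :
    act w g ((over_dn (K := K) w).map x) = (over_dn (K := K) w).map x := by
  have h := act_ext (dn K w) (f := fun x => act w g ((over_dn (K := K) w).map x))
    (f' := fun x => (over_dn (K := K) w).map x)
    ((act_cont K w g).comp (over_dn (K := K) w).continuous_map) (over_dn (K := K) w).continuous_map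
    (fun y => by
      change act w g ((over_dn (K := K) w).map _) = (over_dn (K := K) w).map _
      rw [(over_dn (K := K) w).map_algebraMap, act_coe, AlgEquiv.commutes])
  exact congrFun h x

/-- The valuation of the image of an element of the completion of `K`. -/
lemma map_val : ∃ e : ℕ, 0 < e ∧ ∀ x : (dn K w).adicCompletion K,
    Valued.v ((over_dn (K := K) w).map x) = Valued.v x ^ e := by
  obtain ⟨e, he, h⟩ := ord_dn (K := K) w
  refine ⟨e, he, fun x => ?_⟩
  have hjc : Continuous (over_dn (K := K) w).map := (over_dn (K := K) w).continuous_map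
  by_cases hx : x = 0
  · rw [hx, map_zero, map_zero, map_zero, zero_pow (by omega)]
  have hx2 : (over_dn (K := K) w).map x ≠ 0 := (map_ne_zero _).2 hx
  obtain ⟨y, hy1, hy2⟩ := Od_dens (dn K w) (Filter.inter_mem (Te_nhd x hx)
    ((hjc.continuousAt (x := x)).preimage_mem_nhds (Te_nhd ((over_dn (K := K) w).map x) hx2)))
  have h1 : Valued.v (algebraMap K ((dn K w).adicCompletion K) y) = Valued.v x :=
    Valuation.map_eq_of_sub_lt _ hy1
  have h3 : Valued.v ((over_dn (K := K) w).map (algebraMap K ((dn K w).adicCompletion K) y)) =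
      Valued.v ((over_dn (K := K) w).map x) := Valuation.map_eq_of_sub_lt _ hy2
  have hy0 : y ≠ 0 := by
    rintro rfl
    rw [map_zero, map_zero] at h1
    exact hx ((Valuation.zero_iff _).1 h1.symm)
  rw [← h1, ← h3, (over_dn (K := K) w).map_algebraMap, val_coe, val_coe]
  have h4 := h y hy0
  unfold H38RT.ord at h4
  have e1 : w.valuation F (algebraMap K F y) ≠ 0 :=
    (Valuation.ne_zero_iff _).2 ((map_ne_zero _).2 hy0)
  have e2 : (dn K w).valuation K y ≠ 0 := (Valuation.ne_zero_iff _).2 hy0
  rw [← exp_log e1, ← exp_log e2, ← exp_nsmul]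
  congr 1
  rw [nsmul_eq_mul]
  linarith

variable {K w}

/-- **The fixed elements.** -/
theorem act_fix (hgal : IsGalois K F) {x : w.adicCompletion F}
    (hx : ∀ g : Dec K w, act w g x = x) :
    ∃ y, (over_dn (K := K) w).map y = x := by
  have hfd : FiniteDimensional K F := Module.Finite.of_restrictScalars_finite ℚ K F
  have hfin : Fintype (F ≃ₐ[K] F) := Fintype.ofFinite _
  obtain ⟨j, hj⟩ : ∃ j, j = (over_dn (K := K) w).map := ⟨_, rfl⟩
  have hjc : Continuous j := by rw [hj]; exact (over_dn (K := K) w).continuous_map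
  have hja : ∀ x : K, j (algebraMap K ((dn K w).adicCompletion K) x) =
      algebraMap F (w.adicCompletion F) (algebraMap K F x) := by
    intro x
    rw [hj]
    exact (over_dn (K := K) w).map_algebraMap x
  obtain ⟨e, he, hjv⟩ := map_val K w
  rw [← hj] at hjv ⊢
  have hch : CharZero (w.adicCompletion F) := H36CY.char_zero w
  obtain ⟨i, hi⟩ : ∃ i, i = algebraMap F (w.adicCompletion F) := ⟨_, rfl⟩
  choose cj hcj _ using fun g : F ≃ₐ[K] F => Pool.Agent.H10.exists_conj g w
  have hdense : ∀ c : w.adicCompletion F, c ≠ 0 → ∃ α, Valued.v (j α - x) < Valued.v c := by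
    intro c hc
    obtain ⟨n, hn⟩ : ∃ n : ℕ, n = (Finset.univ.filter (fun g : F ≃ₐ[K] F => g ∈ Dec K w)).card :=
      ⟨_, rfl⟩
    have hn0 : n ≠ 0 := by
      rw [hn]
      exact (Finset.card_pos.2 ⟨1, by simp [(Dec K w).one_mem]⟩).ne'
    have hnc : ((n : ℕ) : w.adicCompletion F) ≠ 0 := Nat.cast_ne_zero.2 hn0
    obtain ⟨ε, hε⟩ : ∃ ε, ε = Valued.v (c * (n : w.adicCompletion F)) := ⟨_, rfl⟩
    have hε0 : ε ≠ 0 := by
      rw [hε]
      exact (Valuation.ne_zero_iff _).2 (mul_ne_zero hc hnc)
    obtain ⟨y0, hy0⟩ := near_coe w x (mul_ne_zero hc hnc)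
    rw [← hε, ← hi] at hy0
    obtain ⟨y, hy⟩ := weak_app (insert w (Finset.univ.image cj))
      (fun V => if V = w then y0 else 0) hε0
    have hyw : w.valuation F (y - y0) < ε := by
      have := hy w (Finset.mem_insert_self _ _)
      rwa [if_pos rfl] at this
    have hyc : ∀ g : F ≃ₐ[K] F, g ∉ Dec K w → w.valuation F (g y) < ε := by
      intro g hg
      rw [hcj g y]
      have h1 : cj g ≠ w := by
        intro h1
        apply hg
        rw [mem_Dec]
        intro z
        rw [hcj g z, h1]
      have h2 := hy (cj g) (Finset.mem_insert_of_mem (Finset.mem_image_of_mem _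
        (Finset.mem_univ g)))
      rwa [if_neg h1, sub_zero] at h2
    have hyx : Valued.v (i y - x) < ε := by
      have h1 : i y - x = i (y - y0) + (i y0 - x) := by
        rw [map_sub]
        ring
      rw [h1]
      refine Valuation.map_add_lt _ ?_ hy0
      rw [hi, val_coe]
      exact hyw
    obtain ⟨t0, ht0⟩ := (IsGalois.mem_range_algebraMap_iff_fixed (F := K)
      (∑ g : F ≃ₐ[K] F, g y)).2 (fun h => by
        rw [map_sum]
        refine Fintype.sum_equiv (Equiv.mulLeft h) _ _ fun g => ?_
        rfl)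
    refine ⟨algebraMap K ((dn K w).adicCompletion K) (t0 / n), ?_⟩
    have key : (n : w.adicCompletion F) *
        (j (algebraMap K ((dn K w).adicCompletion K) (t0 / n)) - x) =
        ∑ g : F ≃ₐ[K] F, (i (g y) - if g ∈ Dec K w then x else 0) := by
      rw [hja, map_div₀, ht0, Finset.sum_sub_distrib, ← Finset.sum_filter, Finset.sum_const,
        ← hn, nsmul_eq_mul, map_natCast, map_div₀, map_natCast, ← hi, map_sum]
      field_simp
    have hlt : Valued.v (∑ g : F ≃ₐ[K] F, (i (g y) - if g ∈ Dec K w then x else 0)) < ε := by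
      refine Valuation.map_sum_lt _ hε0 fun g _ => ?_
      by_cases hg : g ∈ Dec K w
      · rw [if_pos hg]
        have h1 : i (g y) - x = act w ⟨g, hg⟩ (i y - x) := by
          rw [map_sub, hx, hi, act_coe]
        rw [h1, act_val]
        exact hyx
      · rw [if_neg hg, sub_zero, hi, val_coe]
        exact hyc g hg
    rw [← key, map_mul, hε, mul_comm, map_mul] at hlt
    exact lt_of_mul_lt_mul_right' hlt
  have hne : (Filter.comap j (nhds x)).NeBot := by
    rw [Filter.comap_neBot_iff]
    intro t ht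
    obtain ⟨c, hc, hc2⟩ := Od_ball w x ht
    obtain ⟨α, hα⟩ := hdense c hc
    exact ⟨α, hc2 _ hα⟩
  have hcau : Cauchy (Filter.comap j (nhds x)) := by
    rw [Valued.cauchy_iff]
    refine ⟨hne, fun γ => ?_⟩
    obtain ⟨c, hc, hc2⟩ := Od_small w
      (g := MonoidWithZeroHom.ValueGroup₀.embedding γ.1 ^ e) (by simp)
    refine ⟨j ⁻¹' {z | Valued.v (z - x) < Valued.v c},
      Filter.preimage_mem_comap (Te_nhd x hc), ?_⟩
    intro α hα β hβ
    rw [Valuation.restrict_lt_iff_lt_embedding]
    have h1 : Valued.v (β - α) ^ e < MonoidWithZeroHom.ValueGroup₀.embedding γ.1 ^ e := by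
      refine lt_trans ?_ hc2
      rw [← hjv (β - α), map_sub j]
      have e : j β - j α = (j β - x) - (j α - x) := by ring
      rw [e]
      exact Valuation.map_sub_lt _ hβ hα
    exact lt_of_pow_lt_pow_left₀ e zero_le h1
  obtain ⟨α, hα⟩ := CompleteSpace.complete hcau
  refine ⟨α, ?_⟩
  have h3 : Filter.Tendsto j (Filter.comap j (nhds x)) (nhds (j α)) :=
    (hjc.tendsto α).mono_left hα
  have h4 : Filter.Tendsto j (Filter.comap j (nhds x)) (nhds x) := Filter.tendsto_comap
  exact tendsto_nhds_unique h3 h4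

/-- **Descent of the local condition** in Galois extensions of odd degree. -/
theorem LC_down (hgal : IsGalois K F) (hodd : Odd (Module.finrank K F)) {a b : K}
    (hD : 4 * a ^ 3 + 27 * b ^ 2 ≠ 0) {d : Fin 3 → K} (hnd : Te_nf a b d ≠ 0)
    (h : LC ((algebraMap F (w.adicCompletion F)).comp (algebraMap K F)) a b d) :
    LC (algebraMap K ((dn K w).adicCompletion K)) a b d := by
  have hfd : FiniteDimensional K F := Module.Finite.of_restrictScalars_finite ℚ K F
  have hch : CharZero (w.adicCompletion F) := H36CY.char_zero w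
  have hch' : CharZero ((dn K w).adicCompletion K) := H36CY.char_zero (dn K w)
  have hcard : Odd (Nat.card (Dec K w)) := by
    have h1 : Nat.card (Dec K w) ∣ Nat.card (F ≃ₐ[K] F) := Subgroup.card_subgroup_dvd_card _
    have h2 : Nat.card (F ≃ₐ[K] F) = Module.finrank K F := IsGalois.card_aut_eq_finrank K F
    rw [h2] at h1
    exact Odd.of_dvd_nat hodd h1
  refine LC_odd (over_dn (K := K) w).map (algebraMap K ((dn K w).adicCompletion K)) ?_
    (inf_fin (dn K w) _ _) hcard (act w) (fun g h x => act_mul K w g h x)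
    (fun g x => act_map K w g x) (fun x hx => act_fix hgal hx) hnd ?_
  · intro e
    apply hD
    apply (algebraMap K ((dn K w).adicCompletion K)).injective
    rw [map_zero, map_add, map_mul, map_mul, map_pow, map_pow, map_ofNat, map_ofNat]
    exact e
  · have e : (over_dn (K := K) w).map.comp (algebraMap K ((dn K w).adicCompletion K)) =
        (algebraMap F (w.adicCompletion F)).comp (algebraMap K F) := by
      refine RingHom.ext fun x => ?_
      exact (over_dn (K := K) w).map_algebraMap x
    rw [e]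
    exact h

end Dec

end H30OD
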