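import Pool.Agent.H30.OD.Od2
import Pool.Agent.H88.OD.Df
import Pool.Agent.H38.T1.Eb
import Pool.Agent.H76.PP.Za

/-!
# MP_78d38b_OD: descent of the two-Selmer group in extensions of odd degree

* `root_down`: square roots in the cubic algebra descend in odd degree.
* `exists_real`: the real embeddings extend to Galois extensions of odd degree.
* `V_fix` (row Ar12): if the two-Selmer group of the twist over `K` is trivial, the Selmer group
  over `F` has no invariant elements.
* `selTriv_down`: `SelTriv` over `F` implies `SelTriv` over the subfields `M` with `F / M` Galois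
  of odd degree.
-/

set_option autoImplicit false
set_option linter.unusedSectionVars false
open scoped Classical

open WithZero NumberField IsDedekindDomain H76PP H36CY H24PD H73P2 H30ZO H38RT
open H38T1 (SC sc)

namespace H30OD

/-- Square roots in the cubic algebra descend in odd degree. -/
theorem root_down {F0 F1 : Type} [Field F0] [CharZero F0] [Field F1] [CharZero F1] (ψ : F0 →+* F1) {A B : F0}
    {D : Type} [Group D] [Finite D] (hodd : Odd (Nat.card D)) (φ : D → (F1 →+* F1))
    (hmul : ∀ g h x, φ (g * h) x = φ g (φ h x)) (hφ : ∀ g x, φ g (ψ x) = ψ x)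
    (hfix : ∀ x, (∀ g, φ g x = x) → ∃ y, ψ y = x) {u0 : Fin 3 → F0} (hnu : Te_nf A B u0 ≠ 0)
    {w : Fin 3 → F1} (hu : (fun j => ψ (u0 j)) = m3 (ψ A) (ψ B) w w) :
    ∃ w0 : Fin 3 → F0, m3 A B w0 w0 = u0 := by
  have hfin : Fintype D := Fintype.ofFinite D
  have hψ : Function.Injective ψ := ψ.injective
  obtain ⟨m, hm⟩ := hodd
  obtain ⟨N, hN⟩ : ∃ N, N = (Finset.univ : Finset D).fold (m3 (ψ A) (ψ B)) ![1, 0, 0]
    (fun g => fun j => φ g (w j)) := ⟨_, rfl⟩
  have hNfix : ∀ j, ∃ t, ψ t = N j := by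
    intro j
    refine hfix _ fun h => ?_
    rw [hN]
    exact fold_fix φ hmul (fun g => hφ g A) (fun g => hφ g B) w h j
  choose N0 hN0 using hNfix
  have hNN : m3 (ψ A) (ψ B) N N = pw (ψ A) (ψ B) (fun j => ψ (u0 j)) (2 * m + 1) := by
    have h1 : m3 (ψ A) (ψ B) N N = (Finset.univ : Finset D).fold (m3 (ψ A) (ψ B)) ![1, 0, 0]
        (fun g => m3 (ψ A) (ψ B) (fun j => φ g (w j)) (fun j => φ g (w j))) := by
      have h2 := Finset.fold_op_distrib (op := m3 (ψ A) (ψ B))
        (f := fun g : D => fun j => φ g (w j)) (g := fun g : D => fun j => φ g (w j))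
        (b₁ := ![1, 0, 0]) (b₂ := ![1, 0, 0]) (s := Finset.univ)
      rw [one_m3] at h2
      rw [hN, ← h2]
    have h3 : (fun g : D => m3 (ψ A) (ψ B) (fun j => φ g (w j)) (fun j => φ g (w j))) =
        fun _ => fun j => ψ (u0 j) := by
      funext g j
      have h4 : m3 (ψ A) (ψ B) (fun j => φ g (w j)) (fun j => φ g (w j)) j =
          φ g (m3 (ψ A) (ψ B) w w j) := by
        rw [← Te_m3_map, hφ, hφ]
      rw [h4, ← hu]
      exact hφ g _
    rw [h1, h3, fold_const, Finset.card_univ, ← Nat.card_eq_fintype_card, hm]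
  have hpu : ∀ n, (fun j => ψ (pw A B u0 n j)) = pw (ψ A) (ψ B) (fun j => ψ (u0 j)) n := by
    intro n
    induction n with
    | zero =>
      funext j
      fin_cases j <;> simp [pw]
    | succ n ih =>
      change (fun j => ψ (m3 A B u0 (pw A B u0 n) j)) =
        m3 (ψ A) (ψ B) (fun j => ψ (u0 j)) (pw (ψ A) (ψ B) (fun j => ψ (u0 j)) n)
      rw [← ih]
      funext j
      rw [← Te_m3_map]
  have hNN0 : m3 A B N0 N0 = pw A B u0 (2 * m + 1) := by
    funext j
    apply hψ
    have h1 := congrFun (hpu (2 * m + 1)) j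
    rw [h1, ← hNN, ← Te_m3_map]
    have h2 : (fun j => ψ (N0 j)) = N := funext hN0
    rw [h2]
  refine Cb_root (z := pw A B u0 m) (u := N0) (X := u0)
    (by rw [nf_pw]; exact pow_ne_zero _ hnu) ?_
  rw [hNN0]
  change _ = m3 A B u0 (pw A B u0 (2 * m))
  rw [two_mul, pw_add, Cb_comm]

section Ext

variable {K F : Type} [Field K] [NumberField K] [Field F] [NumberField F] [Algebra K F]

/-- Elements of `K` which are squares in `F`. -/
theorem sq_down (hodd : Odd (Module.finrank K F)) {x : K} (hx : IsSquare (algebraMap K F x)) :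
    IsSquare x := by
  have hfd : FiniteDimensional K F := Module.Finite.of_restrictScalars_finite ℚ K F
  by_cases h0 : x = 0
  · rw [h0]
    exact ⟨0, by rw [mul_zero]⟩
  obtain ⟨r, hr⟩ := hx
  obtain ⟨m, hm⟩ := hodd
  have h1 := congrArg (Algebra.norm K) hr
  rw [Algebra.norm_algebraMap, map_mul, hm] at h1
  refine ⟨Algebra.norm K r / x ^ m, ?_⟩
  field_simp
  linear_combination h1

/-- The real embeddings extend. -/
theorem exists_real (hgal : IsGalois K F) (hodd : Odd (Module.finrank K F)) (s : K →+* ℝ) :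
    ∃ s' : F →+* ℝ, ∀ x : K, s' (algebraMap K F x) = s x := by
  have hfd : FiniteDimensional K F := Module.Finite.of_restrictScalars_finite ℚ K F
  letI : Algebra K ℂ := ((algebraMap ℝ ℂ).comp s).toAlgebra
  have halg : ∀ x : K, algebraMap K ℂ x = ((s x : ℝ) : ℂ) := fun x => rfl
  obtain ⟨τ⟩ : Nonempty (F →ₐ[K] ℂ) := ⟨IsAlgClosed.lift⟩
  -- complex conjugation
  let τ' : F →ₐ[K] ℂ :=
    { ((starRingEnd ℂ).comp (τ : F →+* ℂ)) with
      commutes' := fun x => by
        change (starRingEnd ℂ) (τ (algebraMap K F x)) = _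
        rw [τ.commutes, halg, Complex.conj_ofReal] }
  have hτ' : ∀ x, τ' x = (starRingEnd ℂ) (τ x) := fun x => rfl
  -- `τ' = τ ∘ g`
  have hrange : ∀ x : F, ∃ y : F, τ y = τ' x := by
    intro x
    letI : Algebra F ℂ := (τ : F →+* ℂ).toAlgebra
    haveI : IsScalarTower K F ℂ := IsScalarTower.of_algebraMap_eq fun x => (τ.commutes x).symm
    exact ⟨τ'.restrictNormal F x, AlgHom.restrictNormal_commutes τ' F x⟩
  choose f hf using hrange
  have hinj : Function.Injective τ := τ.toRingHom.injective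
  let g0 : F →ₐ[K] F :=
    { toFun := f
      map_one' := hinj (by rw [hf, map_one, map_one])
      map_mul' := fun x y => hinj (by rw [hf, map_mul, map_mul, hf, hf])
      map_zero' := hinj (by rw [hf, map_zero, map_zero])
      map_add' := fun x y => hinj (by rw [hf, map_add, map_add, hf, hf])
      commutes' := fun x => hinj (by rw [hf, τ'.commutes, τ.commutes]) }
  have hg0 : ∀ x, τ (g0 x) = (starRingEnd ℂ) (τ x) := fun x => hf x
  let g : F ≃ₐ[K] F := AlgEquiv.ofBijective g0 (Algebra.IsAlgebraic.algHom_bijective g0)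
  have hg : ∀ x, τ (g x) = (starRingEnd ℂ) (τ x) := fun x => hf x
  have hg2 : g ^ 2 = 1 := by
    apply AlgEquiv.ext
    intro x
    apply hinj
    rw [sq, AlgEquiv.mul_apply, hg, hg, Complex.conj_conj, AlgEquiv.one_apply]
  have hcard : Odd (Nat.card (F ≃ₐ[K] F)) := by
    rw [IsGalois.card_aut_eq_finrank K F]
    exact hodd
  have hg1 : g = 1 := by
    obtain ⟨m, hm⟩ := hcard
    have h1 : g ^ (2 * m + 1) = 1 := by
      rw [← hm]
      exact pow_card_eq_one'
    rw [pow_succ, pow_mul, hg2, one_pow, one_mul] at h1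
    exact h1
  have hreal : ∀ x, (starRingEnd ℂ) (τ x) = τ x := by
    intro x
    rw [← hg, hg1, AlgEquiv.one_apply]
  have hre : ∀ x, (((τ x).re : ℝ) : ℂ) = τ x := fun x => Complex.conj_eq_iff_re.1 (hreal x)
  refine ⟨{ toFun := fun x => (τ x).re
            map_one' := by rw [map_one, Complex.one_re]
            map_mul' := fun x y => by
              rw [map_mul, ← hre x, ← hre y, ← Complex.ofReal_mul, Complex.ofReal_re,
                Complex.ofReal_re, Complex.ofReal_re]
            map_zero' := by rw [map_zero, Complex.zero_re]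
            map_add' := fun x y => by rw [map_add, Complex.add_re] }, fun x => ?_⟩
  change (τ (algebraMap K F x)).re = s x
  rw [τ.commutes, halg, Complex.ofReal_re]

/-- The local conditions over the completions of `F` descend to `K`. -/
theorem LC_down_all (hgal : IsGalois K F) (hodd : Odd (Module.finrank K F)) {a b : K}
    (hD : 4 * a ^ 3 + 27 * b ^ 2 ≠ 0) {d : Fin 3 → K} (hnd : Te_nf a b d ≠ 0)
    (h1 : ∀ w : HeightOneSpectrum (𝓞 F),
      LC (algebraMap F (w.adicCompletion F)) (algebraMap K F a) (algebraMap K F b)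
        (fun j => algebraMap K F (d j)))
    (h2 : ∀ s : F →+* ℝ, LC s (algebraMap K F a) (algebraMap K F b)
        (fun j => algebraMap K F (d j))) :
    (∀ v : HeightOneSpectrum (𝓞 K), LC (algebraMap K (v.adicCompletion K)) a b d) ∧
      ∀ s : K →+* ℝ, LC s a b d := by
  refine ⟨fun v => ?_, fun s => ?_⟩
  · obtain ⟨w, rfl⟩ := exists_above (L := F) v
    exact LC_down hgal hodd hD hnd (h1 w)
  · obtain ⟨s', hs'⟩ := exists_real hgal hodd s
    have h3 := h2 s'
    unfold LC at h3 ⊢
    simp only [hs'] at h3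
    exact h3

/-- Squares in the cubic field over `F` are squares in the cubic field over `K`. -/
theorem ev_sq_down (hgal : IsGalois K F) (hodd : Odd (Module.finrank K F)) {L0 L : Type}
    [Field L0] [NumberField L0] [Algebra K L0] [Field L] [NumberField L] [Algebra F L] {a b : K}
    {θ0 : L0} {θ : L} (h0 : Cub K L0 a b θ0) (h : Cub F L (algebraMap K F a) (algebraMap K F b) θ)
    {d : Fin 3 → K} (hd : ev θ0 d ≠ 0)
    (hsq : IsSquare (ev θ (fun j => algebraMap K F (d j)))) : IsSquare (ev θ0 d) := by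
  have hfd : FiniteDimensional K F := Module.Finite.of_restrictScalars_finite ℚ K F
  obtain ⟨y, hy⟩ := hsq
  obtain ⟨e, he⟩ : ∃ e : Fin 3 → F, ev θ e = y := ⟨fun j => h.co j y, (h.eq_co y).symm⟩
  rw [← he, Te_ev_mul h] at hy
  have hu := Na_inj h hy
  have hfin : Finite (F ≃ₐ[K] F) := inferInstance
  have hcard : Odd (Nat.card (F ≃ₐ[K] F)) := by
    rw [IsGalois.card_aut_eq_finrank K F]
    exact hodd
  obtain ⟨w0, hw0⟩ := root_down (algebraMap K F) (A := a) (B := b) hcard
    (fun g : F ≃ₐ[K] F => (g : F →+* F)) (fun g h x => rfl) (fun g x => g.commutes x)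
    (fun x hx => by
      obtain ⟨y, hy⟩ := (IsGalois.mem_range_algebraMap_iff_fixed (F := K) x).2 hx
      exact ⟨y, hy⟩) (u0 := d) (by
      rw [← Te_norm h0]
      have hfin0 : Module.Finite K L0 := Module.Finite.of_basis h0.basis
      exact Algebra.norm_ne_zero_iff.2 hd) hu
  refine ⟨ev θ0 w0, ?_⟩
  rw [Te_ev_mul h0, hw0]

/-- **Descent of `SelTriv`** from `F` to `K`. -/
theorem selTriv_down (hgal : IsGalois K F) (hodd : Odd (Module.finrank K F)) {L0 L : Type}
    [Field L0] [NumberField L0] [Algebra K L0] [Field L] [NumberField L] [Algebra F L] {a b : K}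
    {θ0 : L0} {θ : L} (h0 : Cub K L0 a b θ0) (h : Cub F L (algebraMap K F a) (algebraMap K F b) θ)
    (hsel : SelTriv F L (algebraMap K F a) (algebraMap K F b) θ) : SelTriv K L0 a b θ0 := by
  intro d hd hN hf hr
  have hnd : Te_nf a b d ≠ 0 := by
    rw [← Te_norm h0]
    have hfin0 : Module.Finite K L0 := Module.Finite.of_basis h0.basis
    exact Algebra.norm_ne_zero_iff.2 hd
  have hnF : Algebra.norm F (ev θ (fun j => algebraMap K F (d j))) =
      algebraMap K F (Algebra.norm K (ev θ0 d)) := by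
    rw [Te_norm h, Te_norm h0, Te_nf_map]
  have hdF : ev θ (fun j => algebraMap K F (d j)) ≠ 0 := by
    intro e
    rw [e] at hnF
    have hfin1 : Module.Finite F L := Module.Finite.of_basis h.basis
    rw [Algebra.norm_zero] at hnF
    exact hnd (by
      rw [← Te_norm h0]
      exact (map_eq_zero _).1 hnF.symm)
  refine ev_sq_down hgal hodd h0 h hd (hsel _ hdF ?_ ?_ ?_)
  · rw [hnF]
    exact hN.map _
  · intro w
    have h1 := hf (dn K w)
    obtain ⟨x, y, z, hy, hxy, hz⟩ := h1
    obtain ⟨j, hj⟩ : ∃ j, j = (over_dn (K := K) w).map := ⟨_, rfl⟩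
    have hja : ∀ x : K, j (algebraMap K ((dn K w).adicCompletion K) x) =
        algebraMap F (w.adicCompletion F) (algebraMap K F x) := by
      intro x
      rw [hj]
      exact (over_dn (K := K) w).map_algebraMap x
    refine ⟨j x, j y, fun i => j (z i), (map_ne_zero j).2 hy, ?_, ?_⟩
    · rw [← hja, ← hja, ← map_pow, hxy, map_add, map_add, map_mul, map_pow]
    · have e1 : (fun i => j ((![x, -1, 0] : Fin 3 → _) i)) = ![j x, -1, 0] := by
        funext i
        fin_cases i <;> simp
      have e2 : (fun i => algebraMap F (w.adicCompletion F) (algebraMap K F (d i))) =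
          fun i => j (algebraMap K ((dn K w).adicCompletion K) (d i)) := by
        funext i
        rw [hja]
      rw [e2, ← e1, ← hja, ← hja]
      funext i
      rw [Te_m3_map, Te_m3_map, hz]
  · intro s
    have h1 := hr (s.comp (algebraMap K F))
    exact h1

end Ext

section V

variable {K F L : Type} [Field K] [NumberField K] [Field F] [NumberField F] [Field L]
  [NumberField L] [Algebra K F] [Algebra F L] {a b : K} {θ : L}

private lemma Od3_co (S : H88OD.Ext K F L a b θ) (g : F ≃ₐ[K] F) (x : L) (i : Fin 3) :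
    S.cub.co i (S.ρ g x) = g (S.cub.co i x) := by
  have h := S.cub.eq_co x
  have h2 : S.ρ g x = algebraMap F L (g (S.cub.co 0 x)) + algebraMap F L (g (S.cub.co 1 x)) * θ +
      algebraMap F L (g (S.cub.co 2 x)) * θ ^ 2 := by
    conv_lhs => rw [h]
    rw [map_add, map_add, map_mul, map_mul, map_pow, S.ρθ, S.ρF, S.ρF, S.ρF]
  rw [h2]
  exact S.cub.co_mk (fun i => g (S.cub.co i x)) i

private lemma Od3_two (c : SC L) : c + c = 0 := by
  obtain ⟨x, hx, rfl⟩ := H38T1.sc_surj c
  rw [← H38T1.sc_mul hx hx]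
  exact (H38T1.sc_eq_zero (mul_ne_zero hx hx)).2 ⟨x, rfl⟩

/-- An invariant class is the class of an element of the cubic field over `K`. -/
theorem fix_rep (S : H88OD.Ext K F L a b θ) {c : SC L}
    (hfix : ∀ g : F ≃ₐ[K] F, S.ρ g • c = c) :
    ∃ d : Fin 3 → K, ev θ (fun j => algebraMap K F (d j)) ≠ 0 ∧
      sc (ev θ (fun j => algebraMap K F (d j))) = c := by
  have hgal := S.gal
  have hfd : FiniteDimensional K F := Module.Finite.of_restrictScalars_finite ℚ K F
  have hfin : Fintype (F ≃ₐ[K] F) := Fintype.ofFinite _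
  obtain ⟨x, hx, rfl⟩ := H38T1.sc_surj c
  obtain ⟨N, hN⟩ : ∃ N, N = ∏ g : F ≃ₐ[K] F, S.ρ g x := ⟨_, rfl⟩
  have hne : ∀ g : F ≃ₐ[K] F, S.ρ g x ≠ 0 := fun g => (map_ne_zero (S.ρ g)).2 hx
  have hN0 : N ≠ 0 := by
    rw [hN]
    exact Finset.prod_ne_zero_iff.2 fun g _ => hne g
  have hNinv : ∀ h : F ≃ₐ[K] F, S.ρ h N = N := by
    intro h
    rw [hN, map_prod]
    refine Fintype.prod_equiv (Equiv.mulLeft h) _ _ fun g => ?_
    rw [Equiv.coe_mulLeft, map_mul]
    rfl
  have hco : ∀ i, ∃ t : K, algebraMap K F t = S.cub.co i N := by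
    intro i
    obtain ⟨t, ht⟩ := (IsGalois.mem_range_algebraMap_iff_fixed (F := K) (S.cub.co i N)).2
      (fun h => by rw [← Od3_co, hNinv])
    exact ⟨t, ht⟩
  choose d hd using hco
  have hev : ev θ (fun j => algebraMap K F (d j)) = N := by
    have h1 : (fun j => algebraMap K F (d j)) = fun j => S.cub.co j N := funext hd
    rw [h1]
    exact (S.cub.eq_co N).symm
  refine ⟨d, by rw [hev]; exact hN0, ?_⟩
  rw [hev, hN]
  have h2 : ∀ s : Finset (F ≃ₐ[K] F), sc (∏ g ∈ s, S.ρ g x) = s.card • sc x := by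
    intro s
    induction s using Finset.induction_on with
    | empty =>
      rw [Finset.prod_empty, Finset.card_empty, zero_nsmul]
      exact (H38T1.sc_eq_zero one_ne_zero).2 ⟨1, by rw [mul_one]⟩
    | insert g s hg ih =>
      rw [Finset.prod_insert hg, H38T1.sc_mul (hne g) (Finset.prod_ne_zero_iff.2 fun g _ => hne g),
        ih, Finset.card_insert_of_notMem hg, succ_nsmul, add_comm]
      congr 1
      rw [← H38T1.smul_sc _ hx]
      exact hfix g
  rw [h2, Finset.card_univ, ← Nat.card_eq_fintype_card, IsGalois.card_aut_eq_finrank K F]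
  obtain ⟨m, hm⟩ := S.odd
  rw [hm, succ_nsmul, mul_comm, mul_nsmul, two_nsmul, ← nsmul_add, Od3_two, nsmul_zero, zero_add]

/-- **No invariant elements** in the Selmer group over `F` of the twist by `D`, if the Selmer
group over `K` is trivial. -/
theorem V_fix (S : H88OD.Ext K F L a b θ) {L0 : Type} [Field L0] [NumberField L0] [Algebra K L0]
    {θ0 : L0} (h0 : Cub K L0 a b θ0) {D : K} (hD : D ≠ 0)
    (hsel : SelTriv K L0 (D ^ 2 * a) (D ^ 3 * b) (algebraMap K L0 D * θ0)) {c : SC L}
    (hc : S.V D c) (hfix : ∀ g : F ≃ₐ[K] F, S.ρ g • c = c) : c = 0 := by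
  obtain ⟨d, hd, hdc⟩ := fix_rep S hfix
  have hDF : algebraMap K F D ≠ 0 := (map_ne_zero _).2 hD
  have hDL : algebraMap F L (algebraMap K F D) ≠ 0 := (map_ne_zero _).2 hDF
  have hD0 : algebraMap K L0 D ≠ 0 := (map_ne_zero _).2 hD
  -- the coordinates for the twist
  obtain ⟨e, he⟩ : ∃ e : Fin 3 → K, e = ![d 0, d 1 / D, d 2 / D ^ 2] := ⟨_, rfl⟩
  obtain ⟨θ', hθ'⟩ : ∃ θ', θ' = algebraMap F L (algebraMap K F D) * θ := ⟨_, rfl⟩
  have hev : ev θ' (fun j => algebraMap K F (e j)) = ev θ (fun j => algebraMap K F (d j)) := by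
    rw [he, hθ']
    simp only [ev, Matrix.cons_val_zero, Matrix.cons_val_one, Matrix.cons_val_two,
      Matrix.head_cons, Matrix.tail_cons, map_div₀, map_pow]
    field_simp
  have hcubF : Cub F L (algebraMap K F (D ^ 2 * a)) (algebraMap K F (D ^ 3 * b)) θ' := by
    have h1 := S.cub.twist hDF
    rw [hθ', map_mul, map_mul, map_pow, map_pow]
    exact h1
  have hcub0 := h0.twist hD
  have hne : ev θ' (fun j => algebraMap K F (e j)) ≠ 0 := by
    rw [hev]
    exact hd
  have hc1 : c = sc (ev θ' (fun j => algebraMap K F (e j))) := by rw [hev, hdc]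
  have hnF : Algebra.norm F (ev θ' (fun j => algebraMap K F (e j))) =
      algebraMap K F (Te_nf (D ^ 2 * a) (D ^ 3 * b) e) := by
    rw [Te_norm hcubF, Te_nf_map]
  have hfin1 : Module.Finite F L := Module.Finite.of_basis S.cub.basis
  have hfin0 : Module.Finite K L0 := Module.Finite.of_basis h0.basis
  have hnd : Te_nf (D ^ 2 * a) (D ^ 3 * b) e ≠ 0 := by
    intro h1
    rw [h1, map_zero] at hnF
    exact Algebra.norm_ne_zero_iff.2 hne hnF
  have hne0 : ev (algebraMap K L0 D * θ0) e ≠ 0 := by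
    intro h1
    apply hnd
    rw [← Te_norm hcub0, h1, Algebra.norm_zero]
  have hdisc : 4 * (D ^ 2 * a) ^ 3 + 27 * (D ^ 3 * b) ^ 2 ≠ 0 := by
    have h1 : 4 * (D ^ 2 * a) ^ 3 + 27 * (D ^ 3 * b) ^ 2 =
        D ^ 6 * (4 * a ^ 3 + 27 * b ^ 2) := by ring
    rw [h1]
    exact mul_ne_zero (pow_ne_zero _ hD) S.dne
  have hloc := LC_down_all S.gal S.odd hdisc hnd
    (fun w => by
      have h1 := hc.fin w
      unfold H88OD.Ext.Lv at h1
      rw [← hθ', hc1] at h1
      exact (Wc_iff _ hcubF hne).1 h1)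
    (fun s => by
      have h1 := hc.inf s
      unfold H88OD.Ext.Lr at h1
      rw [← hθ', hc1] at h1
      exact (Wc_iff _ hcubF hne).1 h1)
  have hsq : IsSquare (ev (algebraMap K L0 D * θ0) e) := by
    refine hsel e hne0 ?_ hloc.1 hloc.2
    rw [Te_norm hcub0]
    apply sq_down S.odd
    rw [← hnF, ← H30ZO.mem_HH hne, ← hc1]
    exact hc.hh
  obtain ⟨y, hy⟩ := hsq
  obtain ⟨t, ht⟩ : ∃ t : Fin 3 → K, ev (algebraMap K L0 D * θ0) t = y :=
    ⟨fun j => hcub0.co j y, (hcub0.eq_co y).symm⟩
  rw [← ht, Te_ev_mul hcub0] at hy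
  have he2 := Na_inj hcub0 hy
  rw [hc1]
  apply (H38T1.sc_eq_zero hne).2
  refine ⟨ev θ' (fun j => algebraMap K F (t j)), ?_⟩
  rw [Te_ev_mul hcubF, he2]
  congr 1
  funext j
  rw [Te_m3_map]

end V

end H30OD
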