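import Pool.Agent.H30.ZO.Nb
import Pool.Agent.H76.OD.Lt
import Pool.Agent.H24.TD.Fi

/-!
# MP_78d38b_OD: the lower bound for the relaxed Selmer groups (modification of ZO/Nb)

`T` finite set of odd places with exactly two places of `L` above, `Y` the classes of square norm
which satisfy the local conditions at all places outside `T`: `2 ^ |T| ≤ |Y|`.
-/

set_option autoImplicit false
set_option linter.unusedSectionVars false
open scoped Classical

open WithZero NumberField IsDedekindDomain H38RT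
open H38T1 (SC sc scu rep eo la si Pri OddP tp unif)
open H76PP H30ZO

namespace H30OD

variable {k L : Type} [Field k] [NumberField k] [Field L] [NumberField L] [Algebra k L]

theorem card_Y (hos : H73P2.OrdSub) {a b : k} {θ : L} (h : Cub k L a b θ)
    (ha : ∀ v : HeightOneSpectrum (𝓞 k), v.valuation k a ≤ 1)
    (hb : ∀ v : HeightOneSpectrum (𝓞 k), v.valuation k b ≤ 1)
    (hD : 4 * a ^ 3 + 27 * b ^ 2 ≠ 0)
    (T : Finset (HeightOneSpectrum (𝓞 k))) (hT : ∀ v ∈ T, nb k L v = 2 ∧ v.valuation k 2 = 1)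
    {Y : AddSubgroup (SC L)} (hY : ∀ c, c ∈ Y ↔ c ∈ HH k L ∧
      (∀ v, v ∉ T → Wc (algebraMap k (v.adicCompletion k)) a b θ c) ∧ ∀ s : k →+* ℝ, Wc s a b θ c) :
    Finite Y ∧ 2 ^ T.card ≤ Nat.card Y := by
  have h20 : (2 : k) ≠ 0 := two_ne_zero
  obtain ⟨S, hS⟩ : ∃ S : Finset (HeightOneSpectrum (𝓞 k)),
      S = T ∪ ((fin_bad h20).toFinset ∪ (fin_bad hD).toFinset) := ⟨_, rfl⟩
  have hTS : T ⊆ S := by
    intro v hv
    rw [hS]
    exact Finset.mem_union_left _ hv
  have hS2 : ∀ v, v ∉ S → v.valuation k 2 = 1 := by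
    intro v hv
    by_contra h1
    apply hv
    rw [hS]
    exact Finset.mem_union_right _ (Finset.mem_union_left _ ((fin_bad h20).mem_toFinset.2 h1))
  have hSD : ∀ v, v ∉ S → v.valuation k (4 * a ^ 3 + 27 * b ^ 2) = 1 := by
    intro v hv
    by_contra h1
    apply hv
    rw [hS]
    exact Finset.mem_union_right _ (Finset.mem_union_right _ ((fin_bad hD).mem_toFinset.2 h1))
  have hWv : ∀ v : HeightOneSpectrum (𝓞 k), ∃ W : AddSubgroup (SC L), ∀ c, c ∈ W ↔
      c ∈ HH k L ∧ Wc (algebraMap k (v.adicCompletion k)) a b θ c := by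
    intro v
    have _ := H36CY.char_zero v
    refine exists_WW h _ ?_ (H24PD.inf_fin v _ _)
    intro e
    apply hD
    apply (algebraMap k (v.adicCompletion k)).injective
    rw [map_zero, map_add, map_mul, map_mul, map_pow, map_pow, map_ofNat, map_ofNat]
    exact e
  choose Wf hWf using hWv
  have hWs : ∀ s : k →+* ℝ, ∃ W : AddSubgroup (SC L), ∀ c, c ∈ W ↔
      c ∈ HH k L ∧ Wc s a b θ c := by
    intro s
    refine exists_WW h s ?_ (H24PD.inf_real _ _)
    intro e
    apply hD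
    apply s.injective
    rw [map_zero, map_add, map_mul, map_mul, map_pow, map_pow, map_ofNat, map_ofNat]
    exact e
  choose Wr hWr using hWs
  -- finiteness
  have hYfin : Finite Y := by
    have hSL : {w : HeightOneSpectrum (𝓞 L) | dn k w ∈ S}.Finite := by
      have h1 : {w : HeightOneSpectrum (𝓞 L) | dn k w ∈ S} =
          ⋃ v ∈ S, {w : HeightOneSpectrum (𝓞 L) | dn k w = v} := by
        ext w
        simp
      rw [h1]
      exact S.finite_toSet.biUnion fun v _ => fin_above v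
    have h2 := H24TD.fin_US hSL
    have h3 : (Y : Set (SC L)) ⊆ {c : SC L | ∀ w, w ∉ {w : HeightOneSpectrum (𝓞 L) | dn k w ∈ S} →
        eo w c = 0} := by
      intro c hc w hw
      have hw' : dn k w ∉ S := hw
      obtain ⟨c1, c2, -⟩ := (hY c).1 hc
      have h4 := c2 (dn k w) (fun h5 => hw' (hTS h5))
      have h5 := (H76OD.Wc_good h (dn k w) (ha _) (hb _) (hS2 _ hw') (hSD _ hw') (E := 1)
        (map_one _) c1).1 (by
          rw [one_pow, one_pow, one_mul, one_mul, map_one, one_mul]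
          exact h4)
      exact h5 w rfl
    exact (h2.subset h3).to_subtype
  refine ⟨hYfin, ?_⟩
  -- the `S`-units of square norm
  obtain ⟨X, hX⟩ : ∃ X : AddSubgroup (SC L),
      X = H24TD.US L {w : HeightOneSpectrum (𝓞 L) | dn k w ∈ S} ⊓ HH k L := ⟨_, rfl⟩
  have hXH : X ≤ HH k L := by
    rw [hX]
    exact inf_le_right
  have hcX := card_X h S
  rw [← hX] at hcX
  have hX0 : Nat.card X ≠ 0 := by
    intro h0
    rw [h0, zero_mul] at hcX
    exact (pow_ne_zero _ two_ne_zero) hcX.symm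
  have hXf : Finite X := Nat.finite_of_card_ne_zero hX0
  -- even valuations outside `S`
  have hev : ∀ c ∈ X, ∀ v, v ∉ S → c ∈ Wf v := by
    intro c hc v hv
    have hcH := hXH hc
    refine good_W hos h v (ha v) (hb v) (hS2 v hv) (hSD v hv) (hWf v) hcH ?_
    intro w hw
    rw [hX] at hc
    obtain ⟨u, hu, rfl⟩ := (AddSubgroup.mem_inf.1 hc).1
    rw [H24TD.cls_eq, H38T1.eo_sc (Units.ne_zero _)]
    have h1 : w.valuation L ((Additive.toMul u : Lˣ) : L) = 1 := by
      refine hu w ?_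
      intro h2
      apply hv
      rw [← hw]
      exact h2
    rw [ord, h1, log_one, neg_zero, Int.cast_zero]
  -- the product of the indices
  obtain ⟨n, hn⟩ : ∃ n, n = Module.finrank ℚ k := ⟨_, rfl⟩
  obtain ⟨t, ht⟩ : ∃ t, t = Nat.card {s : k →+* ℝ // nr k L s = 3} := ⟨_, rfl⟩
  have hplc := places_count h hD
  rw [← hn, ← ht] at hplc
  have hfinI : ∀ v : HeightOneSpectrum (𝓞 k), (Wf v).relIndex (HH k L) ≠ 0 ∧
      2 * (Wf v).relIndex (HH k L) ≤ 2 ^ nb k L v * qq v :=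
    fun v => loc_idx h v (ha v) (hb v) hD (hWf v)
  have hreI : ∀ s : k →+* ℝ, (Wr s).relIndex (HH k L) ≠ 0 ∧
      2 * (Wr s).relIndex (HH k L) ≤ nr k L s + 1 :=
    fun s => real_idx h hD s (hWr s)
  have hqq : ∏ v ∈ S \ T, qq v = 2 ^ n := by
    have h1 : (∏ v ∈ S \ T, qq v) * ∏ v ∈ T, qq v = ∏ v ∈ S, qq v := Finset.prod_sdiff hTS
    rw [Finset.prod_eq_one (s := T) (fun v hv => qq_odd (hT v hv).2), mul_one] at h1
    rw [h1, hn]
    exact prod_two S (fun v hv => by
        by_contra h2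
        rw [hS2 v h2] at hv
        exact lt_irrefl _ hv)
  have hP1 : 2 ^ (S \ T).card * ∏ v ∈ S \ T, (Wf v).relIndex (HH k L) ≤
      2 ^ (∑ v ∈ S \ T, nb k L v) * 2 ^ n := by
    have h1 : ∏ v ∈ S \ T, (2 * (Wf v).relIndex (HH k L)) ≤
        ∏ v ∈ S \ T, (2 ^ nb k L v * qq v) :=
      Finset.prod_le_prod (fun v _ => Nat.zero_le _) (fun v _ => (hfinI v).2)
    rw [Finset.prod_mul_distrib, Finset.prod_mul_distrib, Finset.prod_const,
      Finset.prod_pow_eq_pow_sum, hqq] at h1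
    exact h1
  have hP2 : ∏ s : k →+* ℝ, (Wr s).relIndex (HH k L) ≤ 2 ^ t := by
    have h1 : ∏ s : k →+* ℝ, (Wr s).relIndex (HH k L) ≤
        ∏ s : k →+* ℝ, (if nr k L s = 3 then 2 else 1) := by
      refine Finset.prod_le_prod (fun s _ => Nat.zero_le _) (fun s _ => ?_)
      have h2 := (hreI s).2
      rcases nr_cases h hD s with h3 | h3
      · rw [h3] at h2
        rw [h3]
        simp only [OfNat.one_ne_ofNat, if_false]
        omega
      · rw [h3] at h2
        rw [h3, if_pos rfl]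
        omega
    refine h1.trans (le_of_eq ?_)
    rw [Finset.prod_ite, Finset.prod_const_one, mul_one, Finset.prod_const, ht,
      Nat.card_eq_fintype_card, Fintype.card_subtype]
  -- the intersection
  obtain ⟨Z, hZ⟩ : ∃ Z : AddSubgroup (SC L), Z = ⨅ j : {v // v ∈ S \ T} ⊕ (k →+* ℝ),
    Sum.elim (fun v => Wf v.1) Wr j := ⟨_, rfl⟩
  have hZX : Z ⊓ X ≤ Y := by
    intro c hc
    obtain ⟨c1, c2⟩ := AddSubgroup.mem_inf.1 hc
    rw [hZ, AddSubgroup.mem_iInf] at c1
    refine (hY c).2 ⟨hXH c2, fun v hv => ?_, fun s => ?_⟩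
    · by_cases hvS : v ∈ S
      · exact ((hWf v c).1 (c1 (Sum.inl ⟨v, Finset.mem_sdiff.2 ⟨hvS, hv⟩⟩))).2
      · exact ((hWf v c).1 (hev c c2 v hvS)).2
    · exact ((hWr s c).1 (c1 (Sum.inr s))).2
  have hidx : Z.relIndex X ≤ (∏ v ∈ S \ T, (Wf v).relIndex (HH k L)) *
      ∏ s : k →+* ℝ, (Wr s).relIndex (HH k L) := by
    rw [hZ]
    refine (AddSubgroup.relIndex_iInf_le _).trans ?_
    rw [Fintype.prod_sum_type]
    simp only [Sum.elim_inl, Sum.elim_inr]
    refine Nat.mul_le_mul ?_ ?_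
    · rw [← Finset.prod_coe_sort (S \ T) (fun v => (Wf v).relIndex (HH k L))]
      refine Finset.prod_le_prod (fun v _ => Nat.zero_le _) (fun v _ => ?_)
      exact AddSubgroup.relIndex_le_of_le_right hXH (hfinI v.1).1
    · refine Finset.prod_le_prod (fun v _ => Nat.zero_le _) (fun s _ => ?_)
      exact AddSubgroup.relIndex_le_of_le_right hXH (hreI s).1
  have hcard : Nat.card X = Nat.card ↥(Z ⊓ X : AddSubgroup (SC L)) * Z.relIndex X := by
    have h1 := AddSubgroup.relIndex_mul_relIndex (⊥ : AddSubgroup (SC L)) (Z ⊓ X) X bot_le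
      inf_le_right
    rw [AddSubgroup.relIndex_bot_left, AddSubgroup.relIndex_bot_left,
      AddSubgroup.inf_relIndex_right] at h1
    exact h1.symm
  have hle : Nat.card ↥(Z ⊓ X : AddSubgroup (SC L)) ≤ Nat.card Y :=
    Nat.card_le_card_of_injective (AddSubgroup.inclusion hZX) (AddSubgroup.inclusion_injective hZX)
  -- conclusion
  have hnb : ∑ v ∈ S, nb k L v = (∑ v ∈ S \ T, nb k L v) + 2 * T.card := by
    rw [← Finset.sum_sdiff hTS]
    congr 1
    rw [Finset.sum_congr rfl (fun v hv => (hT v hv).1), Finset.sum_const, smul_eq_mul, mul_comm]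
  have hSc : S.card = (S \ T).card + T.card := (Finset.card_sdiff_add_card_eq_card hTS).symm
  have h1 : Nat.card X * 2 ^ S.card = 2 ^ (∑ v ∈ S, nb k L v) * 2 ^ n * 2 ^ t := by
    have h2 : Nat.card X * 2 ^ S.card *
        2 ^ (InfinitePlace.nrRealPlaces k + InfinitePlace.nrComplexPlaces k) =
        2 ^ (∑ v ∈ S, nb k L v) * 2 ^ n * 2 ^ t *
        2 ^ (InfinitePlace.nrRealPlaces k + InfinitePlace.nrComplexPlaces k) := by
      rw [mul_assoc, ← pow_add, hcX, hplc, ← pow_add, ← pow_add, ← pow_add]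
      congr 1
      omega
    exact Nat.eq_of_mul_eq_mul_right (pow_pos two_pos _) h2
  have h3 : 2 ^ (∑ v ∈ S \ T, nb k L v) * 2 ^ n * 2 ^ t * (2 ^ T.card * 2 ^ T.card) ≤
      2 ^ (∑ v ∈ S \ T, nb k L v) * 2 ^ n * 2 ^ t * (Nat.card Y * 2 ^ T.card) := by
    calc 2 ^ (∑ v ∈ S \ T, nb k L v) * 2 ^ n * 2 ^ t * (2 ^ T.card * 2 ^ T.card)
        = 2 ^ (∑ v ∈ S, nb k L v) * 2 ^ n * 2 ^ t := by
          rw [hnb, pow_add, two_mul, pow_add]
          ring
      _ = Nat.card X * 2 ^ S.card := h1.symm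
      _ ≤ (Nat.card Y * ((∏ v ∈ S \ T, (Wf v).relIndex (HH k L)) *
            ∏ s : k →+* ℝ, (Wr s).relIndex (HH k L))) * 2 ^ S.card := by
          refine Nat.mul_le_mul_right _ ?_
          rw [hcard]
          exact Nat.mul_le_mul hle hidx
      _ = Nat.card Y * 2 ^ T.card * ((2 ^ (S \ T).card *
            ∏ v ∈ S \ T, (Wf v).relIndex (HH k L)) *
            ∏ s : k →+* ℝ, (Wr s).relIndex (HH k L)) := by
          rw [hSc, pow_add]
          ring
      _ ≤ Nat.card Y * 2 ^ T.card * ((2 ^ (∑ v ∈ S \ T, nb k L v) * 2 ^ n) * 2 ^ t) :=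
          Nat.mul_le_mul_left _ (Nat.mul_le_mul hP1 hP2)
      _ = 2 ^ (∑ v ∈ S \ T, nb k L v) * 2 ^ n * 2 ^ t * (Nat.card Y * 2 ^ T.card) := by ring
  have h4 : 2 ^ T.card * 2 ^ T.card ≤ Nat.card Y * 2 ^ T.card :=
    Nat.le_of_mul_le_mul_left h3 (by positivity)
  exact Nat.le_of_mul_le_mul_right h4 (pow_pos two_pos _)

end H30OD
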