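import Mathlib

/-!
# MP_78d38b_OD, the computation of the twisting step (pure algebra)

`R` a ring in which `x + x = 0`, `st` an involution, `M` an `R`-module (the classes which satisfy
the local conditions outside three primes `q_i, q_j, q_k`), `r`, `u` the ramification and the
linear data at the three primes, `hI` the reciprocity law.
-/

namespace Pool.Agent.H30.OD.Comp

/-- an involution (additive, anti-multiplicative, of order two) -/
structure IsInv {R : Type*} [Ring R] (st : R → R) : Prop where
  add : ∀ a b, st (a + b) = st a + st b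
  mul : ∀ a b, st (a * b) = st b * st a
  inv : ∀ a, st (st a) = a

namespace IsInv

variable {R : Type*} [Ring R] {st : R → R} (h : IsInv st)
include h

theorem zero : st 0 = 0 := by
  have := h.add 0 0
  rw [add_zero] at this
  exact left_eq_add.mp this

theorem one : st 1 = 1 := by
  have h1 := h.mul (st 1) 1
  rw [mul_one, h.inv, mul_one] at h1
  exact h1.symm

end IsInv

section

variable {R : Type*} [Ring R] (h2 : ∀ a : R, a + a = 0)
include h2

theorem eq_of_add_zero {a b : R} (h : a + b = 0) : a = b := by
  have := h2 b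
  have h3 : a + b + b = b := by rw [h, zero_add]
  rw [add_assoc, this, add_zero] at h3
  exact h3

theorem neg_eq (a : R) : -a = a := by
  rw [neg_eq_iff_add_eq_zero]; exact h2 a

variable {M : Type*} [AddCommGroup M] [Module R M]

theorem mod_add_self (x : M) : x + x = 0 := by
  have : ((1 : R) + 1) • x = 0 := by rw [h2 1, zero_smul]
  rwa [add_smul, one_smul] at this

/-- **The computation of the twisting step.** -/
theorem step {st : R → R} (hst : IsInv st)
    {η z0 e0 c d Z : R} (hη : η * η = η) (hη' : st η = η) (h0 : z0 + st z0 = 1 + e0)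
    (he0 : e0 * η = 0) (hZ : Z = (1 + η) + η * z0 * η)
    (ri rj rk ui uj uk : M →ₗ[R] R)
    (hI : ∀ x y : M, ri x * st (ui y) + ui x * st (ri y) + (rj x * st (uj y) + uj x * st (rj y))
      + (rk x * st (uk y) + uk x * st (rk y)) = 0)
    (hV : ∀ x : M, ri x = 0 → rj x = 0 → rk x = 0 → ui x * η = ui x)
    (hV' : ∃ x : M, ri x = 0 ∧ rj x = 0 ∧ rk x = 0 ∧ ui x = η)
    {yi yj : M}
    (hi1 : ri yi = 1) (hi2 : rj yi = 0) (hi3 : rk yi = 1) (hi4 : ui yi = c) (hi5 : uj yi = c + Z)
    (hi6 : uk yi = d)
    (hj1 : ri yj = 0) (hj2 : rj yj = 1) (hj3 : rk yj = 1) (hj4 : uj yj = c) (hj6 : uk yj = d)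
    {z : M} (hz1 : ui z = 0) (hz2 : uj z = 0) (hz3 : rk z = 0) : ri z = 0 ∧ rj z = 0 := by
  have hZs : Z + st Z = η := by
    have e1 : st Z = (1 + η) + η * st z0 * η := by
      rw [hZ, hst.add, hst.add, hst.one, hη', hst.mul, hst.mul, hη', mul_assoc]
    rw [e1, hZ]
    have e2 : (1 + η) + η * z0 * η + ((1 + η) + η * st z0 * η)
        = ((1 + η) + (1 + η)) + η * ((z0 + st z0) * η) := by noncomm_ring
    rw [e2, h2, zero_add, h0, add_mul, he0, one_mul, add_zero, hη]
  -- `u_i (y_j)`
  have a1 : c + st c + (d + st d) = 0 := by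
    have := hI yi yi
    rw [hi1, hi2, hi3, hi4, hi5, hi6, hst.one, hst.zero] at this
    simp only [one_mul, mul_one, zero_mul, mul_zero, add_zero] at this
    rw [← this]; abel
  have a2 : ui yj = st (c + Z) + (d + st d) := by
    have := hI yi yj
    rw [hi1, hi2, hi3, hi4, hi5, hi6, hj1, hj2, hj3, hj4, hj6, hst.one, hst.zero] at this
    simp only [one_mul, mul_one, zero_mul, mul_zero, add_zero, zero_add] at this
    have t1 : st (ui yj) = (c + Z) + (st d + d) := by
      apply eq_of_add_zero h2
      rw [← this]; abel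
    have t2 := congrArg st t1
    rw [hst.inv, hst.add, hst.add (st d), hst.inv] at t2
    exact t2
  set f : M := yi + yj with hf
  have f1 : ri f = 1 := by rw [hf, map_add, hi1, hj1, add_zero]
  have f2 : rj f = 1 := by rw [hf, map_add, hi2, hj2, zero_add]
  have f3 : rk f = 0 := by rw [hf, map_add, hi3, hj3, h2]
  have f4 : uj f = Z := by
    rw [hf, map_add, hi5, hj4]
    have : c + Z + c = Z + (c + c) := by abel
    rw [this, h2, add_zero]
  have f5 : ui f = st Z := by
    rw [hf, map_add, hi4, a2, hst.add]
    have : c + (st c + st Z + (d + st d)) = st Z + (c + st c + (d + st d)) := by abel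
    rw [this, a1, add_zero]
  set a := ri z with ha
  set b := rj z with hb
  set e : M := z + b • f with he
  set s := a + b with hs
  have e1 : ri e = s := by rw [he, map_add, map_smul, f1, smul_eq_mul, mul_one]
  have e2 : rj e = 0 := by rw [he, map_add, map_smul, f2, smul_eq_mul, mul_one, ← hb, h2]
  have e3 : rk e = 0 := by rw [he, map_add, map_smul, f3, smul_eq_mul, mul_zero, hz3, add_zero]
  have e4 : ui e = b * st Z := by rw [he, map_add, map_smul, f5, smul_eq_mul, hz1, zero_add]
  have sZ : s * Z = b * η := by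
    have h1 := hI z f
    rw [f1, f2, f3, f4, f5, hz1, hz2, hz3, hst.inv, hst.one, hst.zero] at h1
    simp only [zero_mul, mul_zero, add_zero, ← ha, ← hb] at h1
    rw [← hZs]
    apply eq_of_add_zero h2
    have t : s * Z + b * (Z + st Z) = (a * Z + b * st Z) + (b * Z + b * Z) := by
      rw [hs]
      noncomm_ring
    rw [t, h1, h2, add_zero]
  -- `s η = 0`
  obtain ⟨x0, x1, x2, x3, x4⟩ := hV'
  have sη : s * η = 0 := by
    have := hI e x0
    rw [x1, x2, x3, x4, e1, e2, e3, hst.zero, hη'] at this
    simpa only [zero_mul, mul_zero, add_zero] using this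
  have s1 : s * Z = s := by
    rw [hZ]
    have : s * (1 + η + η * z0 * η) = s + s * η + (s * η) * z0 * η := by noncomm_ring
    rw [this, sη, zero_mul, zero_mul, add_zero, add_zero]
  have s2 : s = b * η := s1.symm.trans sZ
  have s3 : s = 0 := by
    rw [← sη, s2, mul_assoc, hη]
  have bη : b * η = 0 := by rw [← s2, s3]
  have eb : ui e = b := by
    rw [e4]
    have e1' : st Z = (1 + η) + η * st z0 * η := by
      rw [hZ, hst.add, hst.add, hst.one, hη', hst.mul, hst.mul, hη', mul_assoc]
    rw [e1']
    have : b * (1 + η + η * st z0 * η) = b + b * η + (b * η) * st z0 * η := by noncomm_ring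
    rw [this, bη, zero_mul, zero_mul, add_zero, add_zero]
  have b0 : b = 0 := by
    have := hV e (by rw [e1, s3]) e2 e3
    rw [eb, bη] at this
    exact this.symm
  refine ⟨?_, b0⟩
  have : a + b = 0 := by rw [← hs, s3]
  rwa [b0, add_zero] at this

end

end Pool.Agent.H30.OD.Comp
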