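import Pool.Agent.H30.ZO.Uw

/-!
# MP_78d38b_OD: almost all curves have a good twist and the full Galois group

Density one (`de_A`) and positive proportion in every residue class (`de_B`).
-/

set_option autoImplicit false
set_option linter.unusedSectionVars false
open scoped Classical

open WithZero NumberField IsDedekindDomain H38RT
open H76PP H36PP H36MT H36CY H30ZO

namespace H30OD

variable {K : Type} [Field K] [NumberField K]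

/-- Typical primes show that the discriminant is not a square. -/
theorem nsq_of_Pt {v : HeightOneSpectrum (𝓞 K)} {p : 𝓞 K × 𝓞 K} (h : p ∈ H36PP.Pt v) :
    ¬ IsSquare (-(4 * (p.1 : K) ^ 3 + 27 * (p.2 : K) ^ 2)) := by
  obtain ⟨A, B⟩ := p
  obtain ⟨t, ht, hs⟩ := h
  change t ^ 3 + A * t + B ∈ v.asIdeal at ht
  change ∀ s : 𝓞 K, -3 * t ^ 2 - 4 * A - s ^ 2 ∉ v.asIdeal at hs
  change ¬ IsSquare (-(4 * (A : K) ^ 3 + 27 * (B : K) ^ 2))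
  rintro ⟨r, hr⟩
  -- the root is integral
  have hint : IsIntegral ℤ r := by
    have h1 : IsIntegral ℤ (r ^ 2) := by
      have h2 : r ^ 2 = ((-dsc A B : 𝓞 K) : K) := by
        rw [pow_two, ← hr, ← dsc_coe]
        rfl
      rw [h2]
      exact RingOfIntegers.isIntegral_coe _
    exact IsIntegral.of_pow (by norm_num) h1
  obtain ⟨r', hr'⟩ : ∃ r' : 𝓞 K, (r' : K) = r := ⟨⟨r, hint⟩, rfl⟩
  have e1 : r' ^ 2 = -(4 * A ^ 3 + 27 * B ^ 2) := by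
    change r' ^ 2 = -dsc A B
    apply RingOfIntegers.ext
    have e0 : (((r' : 𝓞 K) : K)) ^ 2 = -((dsc A B : 𝓞 K) : K) := by
      rw [hr', pow_two, ← hr, ← dsc_coe]
      rfl
    exact e0
  -- the factorisation of the discriminant
  have e2 : r' ^ 2 - (-3 * t ^ 2 - 4 * A) * (3 * t ^ 2 + A) ^ 2 ∈ v.asIdeal := by
    have e3 : r' ^ 2 - (-3 * t ^ 2 - 4 * A) * (3 * t ^ 2 + A) ^ 2 =
        (t ^ 3 + A * t + B) * (27 * (t ^ 3 + A * t) - 27 * B) := by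
      rw [e1]
      ring
    rw [e3]
    exact v.asIdeal.mul_mem_right _ ht
  by_cases h3 : 3 * t ^ 2 + A ∈ v.asIdeal
  · apply hs (3 * t)
    have e4 : -3 * t ^ 2 - 4 * A - (3 * t) ^ 2 = (-4) * (3 * t ^ 2 + A) := by ring
    rw [e4]
    exact v.asIdeal.mul_mem_left _ h3
  · obtain ⟨u, hu⟩ : ∃ u : 𝓞 K, u * (3 * t ^ 2 + A) - 1 ∈ v.asIdeal := by
      have hmax := v.isMaximal
      obtain ⟨u, y, hy, hu⟩ := hmax.exists_inv h3
      refine ⟨u, ?_⟩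
      have e5 : u * (3 * t ^ 2 + A) - 1 = -y := by rw [← hu]; ring
      rw [e5]
      exact v.asIdeal.neg_mem hy
    apply hs (u * r')
    have e6 : -3 * t ^ 2 - 4 * A - (u * r') ^ 2 =
        -(u ^ 2 * (r' ^ 2 - (-3 * t ^ 2 - 4 * A) * (3 * t ^ 2 + A) ^ 2)) -
        (-3 * t ^ 2 - 4 * A) * (u * (3 * t ^ 2 + A) + 1) * (u * (3 * t ^ 2 + A) - 1) := by
      ring
    rw [e6]
    exact v.asIdeal.sub_mem (v.asIdeal.neg_mem (v.asIdeal.mul_mem_left _ e2))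
      (v.asIdeal.mul_mem_left _ hu)

/-- Almost all pairs have a discriminant which is not a square. -/
theorem nsq_count (K : Type) [Field K] [NumberField K] {ε : ℝ} (hε : 0 < ε) :
    ∃ X₀ : ℝ, ∀ X : ℝ, X₀ ≤ X →
      ({p : 𝓞 K × 𝓞 K | p ∈ Bx K X ∧
        IsSquare (-(4 * (p.1 : K) ^ 3 + 27 * (p.2 : K) ^ 2))}.ncard : ℝ) ≤
        ε * X ^ (5 * Module.finrank ℚ K) := by
  obtain ⟨N₁, h1⟩ := type_count (K := K) hε
  obtain ⟨Z, hZ, hZc⟩ := exists_T (H36PP.inf_primes K) 0 (3 * (N₁ + 1))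
  obtain ⟨X₀, -, h2⟩ := h1 Z (N₁ + 1) (Nat.le_succ _) hZc (fun v hv => (hZ v hv).1)
  refine ⟨X₀, fun X hX => le_trans (Nat.cast_le.2 ?_) (h2 X hX)⟩
  refine Set.ncard_le_ncard ?_ ((H36PP.Bx_finite K X).subset fun p hp => hp.1)
  rintro p ⟨hp, hsq⟩
  refine ⟨hp, ?_⟩
  rw [Finset.filter_eq_empty_iff.2, Finset.card_empty]
  · exact Nat.succ_pos _
  · intro v hv hpv
    exact nsq_of_Pt hpv hsq

/-- The curve has a good twist in `DD`, no point of order two and full Galois group of the field of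
division by two. -/
structure Gd (K : Type) [Field K] [NumberField K] (DD : Finset (𝓞 K)) (p : 𝓞 K × 𝓞 K) : Prop where
  ne : 4 * (p.1 : K) ^ 3 + 27 * (p.2 : K) ^ 2 ≠ 0
  irr : ∀ t : K, t ^ 3 + (p.1 : K) * t + (p.2 : K) ≠ 0
  nsq : ¬ IsSquare (-(4 * (p.1 : K) ^ 3 + 27 * (p.2 : K) ^ 2))
  tw : ∃ D ∈ DD, Tv K ((D : K) ^ 2 * (p.1 : K)) ((D : K) ^ 3 * (p.2 : K))

/-- **Density one.** -/
theorem de_A (K : Type) [Field K] [NumberField K] {m : Ideal (𝓞 K)} (hm : m ≠ ⊥) {ε : ℝ}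
    (hε : 0 < ε) :
    ∃ (DD : Finset (𝓞 K)) (X₀ : ℝ),
      (∀ D ∈ DD, D ≠ 0 ∧ D - 1 ∈ m ∧ ∀ s : K →+* ℝ, 0 < s (D : K)) ∧
      ∀ X : ℝ, X₀ ≤ X →
        ({p : 𝓞 K × 𝓞 K | p ∈ Bx K X ∧ ¬ Gd K DD p}.ncard : ℝ) ≤
          ε * ((Bx K X).ncard : ℝ) := by
  obtain ⟨c, X₁, hc, hlow⟩ := class_lower (K := K) (m := ⊤) top_ne_bot
  obtain ⟨S, Q, DD, X₂, -, h1, h2⟩ := main_AW K hm (ε := ε / 2) (by positivity)
    (Z₀ := {v : HeightOneSpectrum (𝓞 K) | (6 : 𝓞 K) ∉ v.asIdeal}) (H36PP.inf_primes K)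
  obtain ⟨X₃, h3⟩ := nsq_count K (ε := ε / 2 * c) (by positivity)
  refine ⟨DD, max X₁ (max X₂ X₃), fun D hD => ⟨(h1 D hD).2.1, (h1 D hD).1, (h1 D hD).2.2.1⟩, ?_⟩
  intro X hX
  have hX1 : X₁ ≤ X := (le_max_left _ _).trans hX
  have hX2 : X₂ ≤ X := (le_max_left _ _).trans ((le_max_right _ _).trans hX)
  have hX3 : X₃ ≤ X := (le_max_right _ _).trans ((le_max_right _ _).trans hX)
  have h4 := hlow X hX1 0 0
  have h6 : {p : 𝓞 K × 𝓞 K | p ∈ Bx K X ∧ p.1 - 0 ∈ (⊤ : Ideal (𝓞 K)) ∧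
      p.2 - 0 ∈ (⊤ : Ideal (𝓞 K))} = Bx K X := by
    ext p
    simp
  rw [h6] at h4
  have h5 := h2 X hX2
  have h7 := h3 X hX3
  have hfin : ∀ P : 𝓞 K × 𝓞 K → Prop, {p : 𝓞 K × 𝓞 K | p ∈ Bx K X ∧ P p}.Finite := fun P =>
    (H36PP.Bx_finite K X).subset fun p hp => hp.1
  have hsub : {p : 𝓞 K × 𝓞 K | p ∈ Bx K X ∧ ¬ Gd K DD p} ⊆
      {p : 𝓞 K × 𝓞 K | p ∈ Bx K X ∧ ¬ ∃ D ∈ DD, HasU K S Q (D ^ 2 * p.1, D ^ 3 * p.2)} ∪
      {p : 𝓞 K × 𝓞 K | p ∈ Bx K X ∧ IsSquare (-(4 * (p.1 : K) ^ 3 + 27 * (p.2 : K) ^ 2))} := by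
    rintro p ⟨hp, hno⟩
    by_contra hc
    rw [Set.mem_union, not_or] at hc
    have c1 : ∃ D ∈ DD, HasU K S Q (D ^ 2 * p.1, D ^ 3 * p.2) := by
      by_contra h
      exact hc.1 ⟨hp, h⟩
    have c2 : ¬ IsSquare (-(4 * (p.1 : K) ^ 3 + 27 * (p.2 : K) ^ 2)) := fun h => hc.2 ⟨hp, h⟩
    obtain ⟨D, hD, hU⟩ := c1
    apply hno
    have hD0 : (D : K) ≠ 0 := by
      intro h
      apply (h1 D hD).2.1
      apply RingOfIntegers.ext
      rw [h]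
      rfl
    have hb := hU.base
    push_cast at hb
    refine ⟨?_, ?_, c2, D, hD, hb⟩
    · intro h
      apply disc_ne hU.ne
      push_cast
      have e : 4 * ((D : K) ^ 2 * (p.1 : K)) ^ 3 + 27 * ((D : K) ^ 3 * (p.2 : K)) ^ 2 =
          (D : K) ^ 6 * (4 * (p.1 : K) ^ 3 + 27 * (p.2 : K) ^ 2) := by ring
      rw [e, h, mul_zero]
    · intro t ht
      apply hU.irr ((D : K) * t)
      push_cast
      have e : ((D : K) * t) ^ 3 + (D : K) ^ 2 * (p.1 : K) * ((D : K) * t) +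
          (D : K) ^ 3 * (p.2 : K) = (D : K) ^ 3 * (t ^ 3 + (p.1 : K) * t + (p.2 : K)) := by ring
      rw [e, ht, mul_zero]
  have h8 : ({p : 𝓞 K × 𝓞 K | p ∈ Bx K X ∧ ¬ Gd K DD p}.ncard : ℝ) ≤ _ :=
    Nat.cast_le.2 ((Set.ncard_le_ncard hsub ((hfin _).union (hfin _))).trans
      (Set.ncard_union_le _ _))
  push_cast at h8
  refine h8.trans ?_
  have h9 : ε / 2 * c * X ^ (5 * Module.finrank ℚ K) ≤ ε / 2 * ((Bx K X).ncard : ℝ) := by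
    rw [mul_assoc]
    exact mul_le_mul_of_nonneg_left h4 (by positivity)
  linarith

/-- **A positive proportion in every residue class.** -/
theorem de_B (K : Type) [Field K] [NumberField K] {m : Ideal (𝓞 K)} (hm : m ≠ ⊥) :
    ∃ c X₀ : ℝ, 0 < c ∧ ∀ a₀ b₀ : 𝓞 K, ∀ X : ℝ, X₀ ≤ X → ∃ G : Finset (𝓞 K × 𝓞 K),
      (∀ p ∈ G, p ∈ Bx K X ∧ p.1 - a₀ ∈ m ∧ p.2 - b₀ ∈ m ∧ Gd K {1} p) ∧
      (∀ p ∈ G, ∀ q ∈ G, p.1 ^ 3 * q.2 ^ 2 = q.1 ^ 3 * p.2 ^ 2 → p = q) ∧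
      c * ((Bx K X).ncard : ℝ) ≤ (G.card : ℝ) := by
  obtain ⟨c₁, X₁, hc₁, hlow⟩ := class_lower (K := K) (m := ⊤) top_ne_bot
  obtain ⟨S, Q, c, X₂, -, hc, h2⟩ := main_BW K hm
    (Z₀ := {v : HeightOneSpectrum (𝓞 K) | (6 : 𝓞 K) ∉ v.asIdeal}) (H36PP.inf_primes K)
  obtain ⟨X₃, h3⟩ := nsq_count K (ε := c / 2 * c₁) (by positivity)
  refine ⟨c / 2, max X₁ (max X₂ X₃), by positivity, ?_⟩
  intro a₀ b₀ X hX
  have hX1 : X₁ ≤ X := (le_max_left _ _).trans hX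
  have hX2 : X₂ ≤ X := (le_max_left _ _).trans ((le_max_right _ _).trans hX)
  have hX3 : X₃ ≤ X := (le_max_right _ _).trans ((le_max_right _ _).trans hX)
  have h4 := hlow X hX1 0 0
  have h6 : {p : 𝓞 K × 𝓞 K | p ∈ Bx K X ∧ p.1 - 0 ∈ (⊤ : Ideal (𝓞 K)) ∧
      p.2 - 0 ∈ (⊤ : Ideal (𝓞 K))} = Bx K X := by
    ext p
    simp
  rw [h6] at h4
  have h7 := h3 X hX3
  obtain ⟨G, g1, g2, g3⟩ := h2 a₀ b₀ X hX2
  have hfin : ∀ P : 𝓞 K × 𝓞 K → Prop, {p : 𝓞 K × 𝓞 K | p ∈ Bx K X ∧ P p}.Finite := fun P =>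
    (H36PP.Bx_finite K X).subset fun p hp => hp.1
  refine ⟨G.filter fun p => ¬ IsSquare (-(4 * (p.1 : K) ^ 3 + 27 * (p.2 : K) ^ 2)), ?_, ?_, ?_⟩
  · intro p hp
    rw [Finset.mem_filter] at hp
    obtain ⟨p1, p2, p3, hU⟩ := g1 p hp.1
    refine ⟨p1, p2, p3, ?_, hU.irr, hp.2, 1, Finset.mem_singleton_self 1, ?_⟩
    · exact disc_ne hU.ne
    · have e0 : ((1 : 𝓞 K) : K) = 1 := rfl
      have e1 : ((1 : 𝓞 K) : K) ^ 2 * (p.1 : K) = (p.1 : K) := by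
        rw [e0, one_pow, one_mul]
      have e2 : ((1 : 𝓞 K) : K) ^ 3 * (p.2 : K) = (p.2 : K) := by
        rw [e0, one_pow, one_mul]
      rw [e1, e2]
      exact hU.base
  · intro p hp q hq
    exact g2 p (Finset.mem_filter.1 hp).1 q (Finset.mem_filter.1 hq).1
  · have h8 : (G.filter fun p => IsSquare (-(4 * (p.1 : K) ^ 3 + 27 * (p.2 : K) ^ 2))).card ≤
        {p : 𝓞 K × 𝓞 K | p ∈ Bx K X ∧
          IsSquare (-(4 * (p.1 : K) ^ 3 + 27 * (p.2 : K) ^ 2))}.ncard := by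
      rw [← Set.ncard_coe_finset]
      refine Set.ncard_le_ncard ?_ (hfin _)
      intro p hp
      have hp' := Finset.mem_filter.1 (Finset.mem_coe.1 hp)
      exact ⟨(g1 p hp'.1).1, hp'.2⟩
    have h9 := Finset.card_filter_add_card_filter_not (s := G)
      (fun p => IsSquare (-(4 * (p.1 : K) ^ 3 + 27 * (p.2 : K) ^ 2)))
    have h10 : (G.card : ℝ) =
        ((G.filter fun p => IsSquare (-(4 * (p.1 : K) ^ 3 + 27 * (p.2 : K) ^ 2))).card : ℝ) +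
        ((G.filter fun p => ¬ IsSquare (-(4 * (p.1 : K) ^ 3 + 27 * (p.2 : K) ^ 2))).card : ℝ) := by
      exact_mod_cast h9.symm
    have h11 : ((G.filter fun p =>
        IsSquare (-(4 * (p.1 : K) ^ 3 + 27 * (p.2 : K) ^ 2))).card : ℝ) ≤ _ := Nat.cast_le.2 h8
    have h12 : c / 2 * c₁ * X ^ (5 * Module.finrank ℚ K) ≤ c / 2 * ((Bx K X).ncard : ℝ) := by
      rw [mul_assoc]
      exact mul_le_mul_of_nonneg_left h4 (by positivity)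
    linarith

end H30OD
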