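import Pool.Agent.H30.ZO.Cb
import Pool.Agent.H30.ZO.Na
import Pool.Agent.H30.ZO.Df2

/-!
# MP_78d38b_OD: descent of the local condition in extensions of odd degree (abstract form)

`ψ : F0 →+* F1`, a finite group `D` of odd order acts on `F1` by homomorphisms, the fixed elements
are the elements of `F0`. If the class of `d` (over `F0`) comes from a point over `F1` then it comes
from a point over `F0`: take the sum of the conjugates of the point (plus a double of a point over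
`F0`), the square root is descended by the norm.
-/

set_option autoImplicit false
set_option linter.unusedSectionVars false
open scoped Classical

open WeierstrassCurve H76PP H30ZO H73P2 Pool.Agent.H10

namespace H30OD

section M3

variable {F : Type} [Field F] (A B : F)

instance m3_comm : Std.Commutative (m3 A B) := ⟨Cb_comm A B⟩
instance m3_assoc : Std.Associative (m3 A B) := ⟨Cb_assoc A B⟩

/-- The powers. -/
def pw (d : Fin 3 → F) : ℕ → Fin 3 → F
  | 0 => ![1, 0, 0]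
  | n + 1 => m3 A B d (pw d n)

lemma one_m3 (d : Fin 3 → F) : m3 A B ![1, 0, 0] d = d := by
  rw [Cb_comm]
  exact Lb_one A B d

lemma pw_add (d : Fin 3 → F) (m n : ℕ) : pw A B d (m + n) = m3 A B (pw A B d m) (pw A B d n) := by
  induction m with
  | zero =>
    rw [Nat.zero_add]
    exact (one_m3 A B _).symm
  | succ m ih =>
    rw [Nat.succ_add]
    change m3 A B d (pw A B d (m + n)) = m3 A B (m3 A B d (pw A B d m)) (pw A B d n)
    rw [ih, Cb_assoc]

lemma nf_pw (d : Fin 3 → F) (n : ℕ) : Te_nf A B (pw A B d n) = Te_nf A B d ^ n := by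
  induction n with
  | zero => simp [pw, Te_nf]
  | succ n ih =>
    change Te_nf A B (m3 A B d (pw A B d n)) = _
    rw [Te_nf_mul, ih, pow_succ, mul_comm]

lemma fold_const {D : Type} (s : Finset D) (d : Fin 3 → F) :
    s.fold (m3 A B) ![1, 0, 0] (fun _ => d) = pw A B d s.card := by
  induction s using Finset.induction_on with
  | empty => rfl
  | insert a s ha ih => rw [Finset.fold_insert ha, ih, Finset.card_insert_of_notMem ha]; rfl

end M3

section

variable {F0 F1 : Type} [Field F0] [CharZero F0] [Field F1] [CharZero F1] (ψ : F0 →+* F1)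
  (A B : F0)

lemma map_c {F F' : Type} [Field F] [Field F'] (φ : F →+* F') {a b : F} {a' b' : F'}
    (ha : φ a = a') (hb : φ b = b') :
    (⟨0, 0, 0, a, b⟩ : WeierstrassCurve F).map φ = ⟨0, 0, 0, a', b'⟩ := by
  subst ha hb
  simp [WeierstrassCurve.map]

/-- The class of `P` is the class of `d`, after translation by a double of a point over `F0`. -/
def Rl (d : Fin 3 → F1) (P : Pc (ψ A) (ψ B)) : Prop :=
  ∃ Q : Pc A B, Lb_P (ψ A) (ψ B) d (P + (pm ψ (map_c ψ rfl rfl) Q + pm ψ (map_c ψ rfl rfl) Q))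

variable {A B}

lemma avoid0 (hd : 4 * A ^ 3 + 27 * B ^ 2 ≠ 0) (hinf : Infinite (Pc A B))
    (S : Set (Pc (ψ A) (ψ B))) (hS : S.Finite) :
    ∃ Q : Pc A B, ∀ R ∈ S, 4 • pm ψ (map_c ψ rfl rfl) Q ≠ R := by
  obtain ⟨Q, hQ⟩ := Lb_avoid hd hinf ((pm ψ (map_c ψ rfl rfl)) ⁻¹' S)
    (hS.preimage (pm_injective ψ _).injOn)
  refine ⟨Q, fun R hR h => hQ (4 • Q) ?_ rfl⟩
  rw [Set.mem_preimage, map_nsmul, h]
  exact hR

lemma Rl_one (hd : 4 * A ^ 3 + 27 * B ^ 2 ≠ 0) (hinf : Infinite (Pc A B)) :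
    Rl ψ A B ![1, 0, 0] 0 := by
  obtain ⟨Q, hQ⟩ := avoid0 ψ hd hinf {0} (Set.finite_singleton 0)
  have h4 : 4 • pm ψ (map_c ψ rfl rfl) Q ≠ 0 := hQ 0 rfl
  have e4 : 4 • pm ψ (map_c ψ rfl rfl) Q = (pm ψ (map_c ψ rfl rfl) Q + pm ψ (map_c ψ rfl rfl) Q) +
    (pm ψ (map_c ψ rfl rfl) Q + pm ψ (map_c ψ rfl rfl) Q) := by abel
  refine ⟨Q, ?_⟩
  rw [zero_add]
  refine Lb_dbl two_ne_zero _ ?_ ?_
  · intro h
    apply h4
    rw [e4, h, add_zero]
  · rw [← e4]
    exact h4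

lemma Rl_add (hd : 4 * A ^ 3 + 27 * B ^ 2 ≠ 0) (hinf : Infinite (Pc A B)) {d₁ d₂ : Fin 3 → F1}
    {R₁ R₂ : Pc (ψ A) (ψ B)} (h₁ : Rl ψ A B d₁ R₁) (h₂ : Rl ψ A B d₂ R₂) :
    Rl ψ A B (m3 (ψ A) (ψ B) d₁ d₂) (R₁ + R₂) := by
  obtain ⟨Q₁, L₁⟩ := h₁
  obtain ⟨Q₂, L₂⟩ := h₂
  have h2 : (2 : F1) ≠ 0 := two_ne_zero
  obtain ⟨P₁, hP₁⟩ : ∃ P₁, P₁ = R₁ + (pm ψ (map_c ψ rfl rfl) Q₁ + pm ψ (map_c ψ rfl rfl) Q₁) :=
    ⟨_, rfl⟩
  obtain ⟨P₂, hP₂⟩ : ∃ P₂, P₂ = R₂ + (pm ψ (map_c ψ rfl rfl) Q₂ + pm ψ (map_c ψ rfl rfl) Q₂) :=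
    ⟨_, rfl⟩
  rw [← hP₁] at L₁
  rw [← hP₂] at L₂
  obtain ⟨Q', hQ'⟩ := avoid0 ψ hd hinf
    {0, P₁ + P₁, -(P₁ + P₁), (P₂ - P₁) + (P₂ - P₁), -((P₁ + P₂) + (P₁ + P₂))} (by simp)
  obtain ⟨Q, hQdef⟩ : ∃ Q, Q = pm ψ (map_c ψ rfl rfl) Q' := ⟨_, rfl⟩
  rw [← hQdef] at hQ'
  have q0 : 4 • Q ≠ 0 := hQ' _ (by simp)
  have q1 : 4 • Q ≠ P₁ + P₁ := hQ' _ (by simp)
  have q2 : 4 • Q ≠ -(P₁ + P₁) := hQ' _ (by simp)
  have q3 : 4 • Q ≠ (P₂ - P₁) + (P₂ - P₁) := hQ' _ (by simp)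
  have q4 : 4 • Q ≠ -((P₁ + P₂) + (P₁ + P₂)) := hQ' _ (by simp)
  have h4 : 4 • Q = (Q + Q) + (Q + Q) := by abel
  have hT : Lb_P (ψ A) (ψ B) ![1, 0, 0] (Q + Q) := by
    refine Lb_dbl h2 Q ?_ ?_
    · intro h
      apply q0
      rw [h4, h, add_zero]
    · rw [← h4]
      exact q0
  have hA : Lb_P (ψ A) (ψ B) d₁ (P₁ + (Q + Q)) := by
    have := Lb_add L₁ hT ?_ ?_ ?_
    · rwa [Lb_one] at this
    · intro h
      apply q1
      rw [h4, ← h]
    · intro h
      apply q2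
      rw [h4, h]
      abel
    · intro h
      apply q2
      rw [h4, eq_neg_iff_add_eq_zero, ← h]
      abel
  have hB := Lb_add hA L₂ ?_ ?_ ?_
  · refine ⟨Q₁ + Q' + Q₂, ?_⟩
    rw [map_add, map_add, ← hQdef]
    have e : R₁ + R₂ + (pm ψ (map_c ψ rfl rfl) Q₁ + Q + pm ψ (map_c ψ rfl rfl) Q₂ +
        (pm ψ (map_c ψ rfl rfl) Q₁ + Q + pm ψ (map_c ψ rfl rfl) Q₂)) = P₁ + (Q + Q) + P₂ := by
      rw [hP₁, hP₂]
      abel
    rw [e]
    exact hB
  · intro h
    apply q3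
    rw [h4, ← h]
    abel
  · intro h
    apply q4
    rw [h4]
    have : P₂ = -(P₁ + (Q + Q)) := by rw [h, neg_neg]
    rw [this]
    abel
  · intro h
    apply q4
    rw [h4, eq_neg_iff_add_eq_zero, ← h]
    abel

lemma Lb_map {F F' : Type} [Field F] [Field F'] (φ : F →+* F') {a b : F} {a' b' : F'}
    (ha : φ a = a') (hb : φ b = b') {d : Fin 3 → F} {P : Pc a b} (h : Lb_P a b d P) :
    Lb_P a' b' (fun j => φ (d j)) (pm φ (map_c φ ha hb) P) := by
  obtain ⟨x, y, hns, z, rfl, hy, hz⟩ := h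
  subst ha hb
  refine ⟨φ x, φ y, _, fun j => φ (z j), pm_some φ _ hns, (map_ne_zero φ).2 hy, ?_⟩
  have e : (![φ x, -1, 0] : Fin 3 → F') = fun j => φ ((![x, -1, 0] : Fin 3 → F) j) := by
    funext j
    fin_cases j <;> simp
  rw [e]
  funext j
  rw [Te_m3_map, Te_m3_map, hz]

/-- The norm of `z`, fixed by the group. -/
lemma fold_fix {D : Type} [Group D] [Fintype D] (φ : D → (F1 →+* F1))
    (hmul : ∀ g h x, φ (g * h) x = φ g (φ h x)) {a b : F1} (ha : ∀ g, φ g a = a)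
    (hb : ∀ g, φ g b = b) (z : Fin 3 → F1) (h : D) (j : Fin 3) :
    φ h ((Finset.univ : Finset D).fold (m3 a b) ![1, 0, 0] (fun g => fun j => φ g (z j)) j) =
      (Finset.univ : Finset D).fold (m3 a b) ![1, 0, 0] (fun g => fun j => φ g (z j)) j := by
  have h1 : (fun j => φ h ((Finset.univ : Finset D).fold (m3 a b) ![1, 0, 0]
      (fun g => fun j => φ g (z j)) j)) =
      (Finset.univ : Finset D).fold (m3 a b) ![1, 0, 0] (fun g => fun j => φ (h * g) (z j)) := by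
    have h2 : ∀ s : Finset D, (fun j => φ h (s.fold (m3 a b) ![1, 0, 0]
      (fun g => fun j => φ g (z j)) j)) =
      s.fold (m3 a b) ![1, 0, 0] (fun g => fun j => φ (h * g) (z j)) := by
      intro s
      induction s using Finset.induction_on with
      | empty =>
        rw [Finset.fold_empty, Finset.fold_empty]
        funext j
        fin_cases j <;> simp
      | insert g s hg ih =>
        rw [Finset.fold_insert hg, Finset.fold_insert hg, ← ih]
        funext j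
        rw [← Te_m3_map, ha, hb]
        have e : (fun j => φ h (φ g (z j))) = fun j => φ (h * g) (z j) := by
          funext j
          rw [hmul]
        rw [e]
    exact h2 _
  have h3 : (Finset.univ : Finset D).fold (m3 a b) ![1, 0, 0] (fun g => fun j => φ (h * g) (z j)) =
      (Finset.univ : Finset D).fold (m3 a b) ![1, 0, 0] (fun g => fun j => φ g (z j)) := by
    conv_rhs => rw [← Finset.univ_map_equiv_to_embedding (Equiv.mulLeft h), Finset.fold_map]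
    rfl
  exact congrFun (h1.trans h3) j

/-- **Odd descent**, abstract form. -/
theorem odd_descent (hd : 4 * A ^ 3 + 27 * B ^ 2 ≠ 0) (hinf : Infinite (Pc A B))
    {D : Type} [Group D] [Finite D] (hodd : Odd (Nat.card D)) (φ : D → (F1 →+* F1))
    (hmul : ∀ g h x, φ (g * h) x = φ g (φ h x)) (hφ : ∀ g x, φ g (ψ x) = ψ x)
    (hfix : ∀ x, (∀ g, φ g x = x) → ∃ y, ψ y = x) {d : Fin 3 → F0} (hnd : Te_nf A B d ≠ 0)
    (h : ∃ (x y : F1) (z : Fin 3 → F1), y ≠ 0 ∧ y ^ 2 = x ^ 3 + ψ A * x + ψ B ∧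
      m3 (ψ A) (ψ B) (fun j => ψ (d j)) ![x, -1, 0] = m3 (ψ A) (ψ B) z z) :
    ∃ (x y : F0) (z : Fin 3 → F0), y ≠ 0 ∧ y ^ 2 = x ^ 3 + A * x + B ∧
      m3 A B d ![x, -1, 0] = m3 A B z z := by
  have hfin : Fintype D := Fintype.ofFinite D
  obtain ⟨x, y, z, hy, he, hz⟩ := h
  have h2 : (2 : F1) ≠ 0 := two_ne_zero
  have hψ : Function.Injective ψ := ψ.injective
  set d1 : Fin 3 → F1 := fun j => ψ (d j) with hd1
  have L : Lb_P (ψ A) (ψ B) d1 (Affine.Point.some x y (Lb_ns h2 hy he)) :=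
    ⟨x, y, _, z, rfl, hy, hz⟩
  obtain ⟨P, hP⟩ : ∃ P : Pc (ψ A) (ψ B), P = Affine.Point.some x y (Lb_ns h2 hy he) := ⟨_, rfl⟩
  rw [← hP] at L
  have hmap : ∀ g, (⟨0, 0, 0, ψ A, ψ B⟩ : WeierstrassCurve F1).map (φ g) = ⟨0, 0, 0, ψ A, ψ B⟩ :=
    fun g => map_c (φ g) (hφ g A) (hφ g B)
  have hg : ∀ g, Lb_P (ψ A) (ψ B) d1 (pm (φ g) (hmap g) P) := by
    intro g
    have h1 := Lb_map (φ g) (hφ g A) (hφ g B) L
    have e : (fun j => φ g (d1 j)) = d1 := by
      funext j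
      exact hφ g (d j)
    rw [e] at h1
    exact h1
  have hsum : ∀ s : Finset D, Rl ψ A B (pw (ψ A) (ψ B) d1 s.card)
      (∑ g ∈ s, pm (φ g) (hmap g) P) := by
    intro s
    induction s using Finset.induction_on with
    | empty =>
      rw [Finset.sum_empty]
      exact Rl_one ψ hd hinf
    | insert g s hgs ih =>
      rw [Finset.sum_insert hgs, Finset.card_insert_of_notMem hgs]
      refine Rl_add ψ hd hinf ⟨0, ?_⟩ ih
      rw [map_zero, add_zero, add_zero]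
      exact hg g
  obtain ⟨Q, hQ⟩ := hsum Finset.univ
  rw [Finset.card_univ, ← Nat.card_eq_fintype_card] at hQ
  obtain ⟨m, hm⟩ := hodd
  rw [hm] at hQ
  obtain ⟨x1, y1, ns1, w, hP1, hy1, hw⟩ := hQ
  have hinv : ∀ h, pm (φ h) (hmap h) (∑ g ∈ (Finset.univ : Finset D), pm (φ g) (hmap g) P +
      (pm ψ (map_c ψ rfl rfl) Q + pm ψ (map_c ψ rfl rfl) Q)) =
      ∑ g ∈ (Finset.univ : Finset D), pm (φ g) (hmap g) P +
      (pm ψ (map_c ψ rfl rfl) Q + pm ψ (map_c ψ rfl rfl) Q) := by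
    intro h
    rw [map_add, map_add, map_sum]
    congr 1
    · refine Fintype.sum_equiv (Equiv.mulLeft h) _ _ fun g => ?_
      rw [pm_pm]
      refine pm_congr _ _ (fun x => ?_) P
      rw [Equiv.coe_mulLeft, hmul]
      rfl
    · have e : pm (φ h) (hmap h) (pm ψ (map_c ψ rfl rfl) Q) = pm ψ (map_c ψ rfl rfl) Q := by
        rw [pm_pm]
        exact pm_congr _ _ (fun x => hφ h x) Q
      rw [e]
  rw [hP1] at hinv
  have hx1 : ∀ h, φ h x1 = x1 ∧ φ h y1 = y1 := by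
    intro h
    have h1 := hinv h
    rw [pm_some, Affine.Point.some.injEq] at h1
    exact h1
  obtain ⟨x0, hx0⟩ := hfix x1 (fun h => (hx1 h).1)
  obtain ⟨y0, hy0⟩ := hfix y1 (fun h => (hx1 h).2)
  have e1 := Lb_eqn ns1
  rw [← hx0, ← hy0] at e1
  have e0 : y0 ^ 2 = x0 ^ 3 + A * x0 + B := by
    apply hψ
    simp only [map_add, map_mul, map_pow]
    exact e1
  have hy00 : y0 ≠ 0 := by
    rintro rfl
    rw [map_zero] at hy0
    exact hy1 hy0.symm
  -- the square root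
  obtain ⟨u0, hu0⟩ : ∃ u0, u0 = m3 A B (pw A B d (2 * m + 1)) ![x0, -1, 0] := ⟨_, rfl⟩
  have hpw : ∀ n, (fun j => ψ (pw A B d n j)) = pw (ψ A) (ψ B) d1 n := by
    intro n
    induction n with
    | zero =>
      funext j
      fin_cases j <;> simp [pw]
    | succ n ih =>
      change (fun j => ψ (m3 A B d (pw A B d n) j)) = m3 (ψ A) (ψ B) d1 (pw (ψ A) (ψ B) d1 n)
      rw [← ih]
      funext j
      rw [← Te_m3_map]
  have hu : (fun j => ψ (u0 j)) = m3 (ψ A) (ψ B) w w := by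
    rw [← hw, ← hpw, hu0]
    funext j
    rw [← Te_m3_map]
    congr 1
    funext j
    fin_cases j
    · exact hx0
    · change ψ (-1) = -1
      rw [map_neg, map_one]
    · exact map_zero ψ
  obtain ⟨N, hN⟩ : ∃ N, N = (Finset.univ : Finset D).fold (m3 (ψ A) (ψ B)) ![1, 0, 0]
    (fun g => fun j => φ g (w j)) := ⟨_, rfl⟩
  have hNfix : ∀ j, ∃ t, ψ t = N j := by
    intro j
    refine hfix _ fun h => ?_
    rw [hN]
    exact fold_fix φ hmul (fun g => hφ g A) (fun g => hφ g B) w h j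
  choose N0 hN0 using hNfix
  have hNN : m3 (ψ A) (ψ B) N N = pw (ψ A) (ψ B) (fun j => ψ (u0 j)) (2 * m + 1) := by
    have h1 : m3 (ψ A) (ψ B) N N = (Finset.univ : Finset D).fold (m3 (ψ A) (ψ B)) ![1, 0, 0]
        (fun g => m3 (ψ A) (ψ B) (fun j => φ g (w j)) (fun j => φ g (w j))) := by
      have h2 := Finset.fold_op_distrib (op := m3 (ψ A) (ψ B))
        (f := fun g : D => fun j => φ g (w j)) (g := fun g : D => fun j => φ g (w j))
        (b₁ := ![1, 0, 0]) (b₂ := ![1, 0, 0]) (s := Finset.univ)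
      rw [one_m3] at h2
      rw [hN, ← h2]
    have h3 : (fun g : D => m3 (ψ A) (ψ B) (fun j => φ g (w j)) (fun j => φ g (w j))) =
        fun _ => fun j => ψ (u0 j) := by
      funext g j
      have h4 : m3 (ψ A) (ψ B) (fun j => φ g (w j)) (fun j => φ g (w j)) j =
          φ g (m3 (ψ A) (ψ B) w w j) := by
        rw [← Te_m3_map, hφ, hφ]
      rw [h4, ← hu]
      exact hφ g _
    rw [h1, h3, fold_const, Finset.card_univ, ← Nat.card_eq_fintype_card, hm]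
  have hpu : ∀ n, (fun j => ψ (pw A B u0 n j)) = pw (ψ A) (ψ B) (fun j => ψ (u0 j)) n := by
    intro n
    induction n with
    | zero =>
      funext j
      fin_cases j <;> simp [pw]
    | succ n ih =>
      change (fun j => ψ (m3 A B u0 (pw A B u0 n) j)) =
        m3 (ψ A) (ψ B) (fun j => ψ (u0 j)) (pw (ψ A) (ψ B) (fun j => ψ (u0 j)) n)
      rw [← ih]
      funext j
      rw [← Te_m3_map]
  have hNN0 : m3 A B N0 N0 = pw A B u0 (2 * m + 1) := by
    funext j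
    apply hψ
    have h1 := congrFun (hpu (2 * m + 1)) j
    rw [h1, ← hNN, ← Te_m3_map]
    have h2 : (fun j => ψ (N0 j)) = N := funext hN0
    rw [h2]
  -- norms
  have hnX : Te_nf A B ![x0, -1, 0] = y0 ^ 2 := by
    rw [e0]
    simp only [Te_nf, Matrix.cons_val_zero, Matrix.cons_val_one, Matrix.cons_val_two,
      Matrix.head_cons, Matrix.tail_cons]
    ring
  have hnu : Te_nf A B u0 ≠ 0 := by
    rw [hu0, Te_nf_mul, nf_pw, hnX]
    exact mul_ne_zero (pow_ne_zero _ hnd) (pow_ne_zero _ hy00)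
  have hodd2 : ∀ u : Fin 3 → F0, pw A B u (2 * m + 1) = m3 A B (m3 A B (pw A B u m) (pw A B u m)) u := by
    intro u
    change m3 A B u (pw A B u (2 * m)) = _
    rw [two_mul, pw_add, Cb_comm]
  obtain ⟨w0, hw0⟩ := Cb_root (z := pw A B u0 m) (u := N0) (X := u0)
    (by rw [nf_pw]; exact pow_ne_zero _ hnu) (by rw [hNN0, hodd2])
  obtain ⟨w1, hw1⟩ := Cb_root (z := pw A B d m) (u := w0) (X := m3 A B d ![x0, -1, 0])
    (by rw [nf_pw]; exact pow_ne_zero _ hnd) (by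
      rw [hw0, hu0, hodd2, Cb_assoc A B (m3 A B (pw A B d m) (pw A B d m)) d])
  exact ⟨x0, y0, w1, hy00, e0, hw1.symm⟩

/-- **Odd descent** for `LC`. -/
theorem LC_odd {K : Type} [Field K] (i : K →+* F0) {a b : K}
    (hd : 4 * i a ^ 3 + 27 * i b ^ 2 ≠ 0) (hinf : Infinite (Pc (i a) (i b)))
    {D : Type} [Group D] [Finite D] (hodd : Odd (Nat.card D)) (φ : D → (F1 →+* F1))
    (hmul : ∀ g h x, φ (g * h) x = φ g (φ h x)) (hφ : ∀ g x, φ g (ψ x) = ψ x)
    (hfix : ∀ x, (∀ g, φ g x = x) → ∃ y, ψ y = x) {d : Fin 3 → K} (hnd : Te_nf a b d ≠ 0)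
    (h : LC (ψ.comp i) a b d) : LC i a b d := by
  refine odd_descent ψ hd hinf hodd φ hmul hφ hfix ?_ h
  rw [Te_nf_map]
  exact (map_ne_zero i).2 hnd

end

end H30OD
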